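import Mathlib

/-!
# The Baum-Connes assembly map for topological actions with large stabilizers: definitions
-/

set_option autoImplicit false

open MulAction

namespace Pool.Agent.V7H36.HS

section

variable {G X : Type} [Group G] [MulAction G X]

/-- The set `S` is invariant under the subgroup `H`. -/
def Invariant (H : Subgroup G) (S : Set X) : Prop := ∀ h ∈ H, ∀ x ∈ S, h • x ∈ S

/-- The subset `A` of `B` is open in `B`. -/
def IsOpenIn {Y : Type} [TopologicalSpace Y] (A B : Set Y) : Prop := ∃ O, IsOpen O ∧ A = B ∩ O

variable [TopologicalSpace G] [TopologicalSpace X]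

/-- Known properties of the assembly map of Baum and Connes with commutative coefficients, for a
connected Lie group `G`, a locally compact `G`-space `X` and the closed subgroups `H` of `G`:
`BC H S` says that for the locally closed `H`-invariant subset `S` of `X` the assembly map
`KK_H(E H, S) → K_*(C_0(S) ⋊_r H)` is an isomorphism. -/
structure IsAssembly (BC : Subgroup G → Set X → Prop) : Prop where
  /-- both groups are zero -/
  empty : ∀ H : Subgroup G, IsClosed (H : Set G) → BC H ∅
  /-- the exact sequences of the open subset `A` of `A ∪ B` (`H` is exact) and the five lemma -/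
  excision : ∀ (H : Subgroup G) (A B : Set X), IsClosed (H : Set G) → Invariant H A →
    Invariant H B → IsLocallyClosed A → IsLocallyClosed B → IsLocallyClosed (A ∪ B) →
    Disjoint A B → IsOpenIn A (A ∪ B) → BC H A → BC H B → BC H (A ∪ B)
  /-- both groups are compatible with increasing unions of open subsets -/
  union : ∀ (H : Subgroup G) (A : ℕ → Set X), IsClosed (H : Set G) → (∀ k, Invariant H (A k)) →
    Monotone A → IsLocallyClosed (⋃ k, A k) → (∀ k, IsOpenIn (A k) (⋃ k, A k)) →
    (∀ k, BC H (A k)) → BC H (⋃ k, A k)
  /-- Green, Chabert, Echterhoff: an `H`-space `A` with a continuous equivariant map `f` to `H / K` is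
  induced from the `K`-space `f⁻¹ (K)`, and the assembly maps for `H`, `A` and for `K`, `f⁻¹ (K)` are
  the same -/
  induced : ∀ H K : Subgroup G, IsClosed (H : Set G) → IsClosed (K : Set G) → K ≤ H →
    ∀ A : Set X, Invariant H A → IsLocallyClosed A → ∀ f : X → G ⧸ K, ContinuousOn f A →
      (∀ h ∈ H, ∀ x ∈ A, f (h • x) = h • f x) → (∀ x ∈ A, ∃ h ∈ H, f x = (h : G ⧸ K)) →
      BC K (A ∩ f ⁻¹' {((1 : G) : G ⧸ K)}) → BC H A
  /-- Chabert, Echterhoff, Nest: the conjecture with trivial coefficients holds for the groups `H` with
  finitely many connected components; so it holds for the spaces with trivial action of `H`, because both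
  groups are homology theories in `S` -/
  trivial : ∀ (H : Subgroup G) (S : Set X), IsClosed (H : Set G) → Finite (ConnectedComponents H) →
    (∀ h ∈ H, ∀ x ∈ S, h • x = x) → IsLocallyClosed S → BC H S
  /-- Chabert, Echterhoff, Oyono-Oyono: if `H / L` is abelian, and the assembly map for `M` and `S` is
  an isomorphism for all `L ≤ M ≤ H` with `M / L` compact, then also for `H` and `S` -/
  extension : ∀ H L : Subgroup G, IsClosed (H : Set G) → IsClosed (L : Set G) → L ≤ H →
    (∀ a ∈ H, ∀ b ∈ H, a * b * a⁻¹ * b⁻¹ ∈ L) → ∀ S : Set X, Invariant H S → IsLocallyClosed S →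
      (∀ M : Subgroup G, IsClosed (M : Set G) → L ≤ M → M ≤ H →
        (∃ C : Set G, IsCompact C ∧ ∀ m ∈ M, ∃ c ∈ C, ∃ l ∈ L, m = c * l) → BC M S) → BC H S

end

end Pool.Agent.V7H36.HS
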