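import Mathlib
import Pool.Agent.V7H36.HS.Defs

/-!
# The assembly map for spaces all of whose stabilizers contain large subgroups
-/

set_option autoImplicit false

open MulAction

namespace Pool.Agent.V7H36.HS

section

variable {G X : Type} [Group G] [MulAction G X] [TopologicalSpace G] [IsTopologicalGroup G]
  [TopologicalSpace X] [T2Space X] [ContinuousSMul G X]

/-- the points fixed by a conjugate of `L` -/
def Fx (X : Type) [MulAction G X] (L : Set G) : Set X := {x | ∃ g : G, ∀ l ∈ L, (g * l * g⁻¹) • x = x}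

/-- the relation between points and cosets -/
def Rel (X : Type) [MulAction G X] (Q : Subgroup G) (L : Set G) : Set (X × (G ⧸ Q)) :=
  {p | ∀ g : G, (g : G ⧸ Q) = p.2 → ∀ l ∈ L, (g * l * g⁻¹) • p.1 = p.1}

theorem rel_iff {Q : Subgroup G} {L : Set G} (hL : ∀ q ∈ Q, ∀ l ∈ L, q * l * q⁻¹ ∈ L) (x : X) (g : G) :
    (x, (g : G ⧸ Q)) ∈ Rel X Q L ↔ ∀ l ∈ L, (g * l * g⁻¹) • x = x := by
  constructor
  · intro h
    exact h g rfl
  · intro h g' hg' l hl
    have h1 : g⁻¹ * g' ∈ Q := QuotientGroup.eq.1 hg'.symm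
    have h2 := h _ (hL _ h1 l hl)
    have h3 : g * (g⁻¹ * g' * l * (g⁻¹ * g')⁻¹) * g⁻¹ = g' * l * g'⁻¹ := by group
    rw [h3] at h2
    exact h2

theorem isClosed_rel {Q : Subgroup G} {L : Set G} (hL : ∀ q ∈ Q, ∀ l ∈ L, q * l * q⁻¹ ∈ L) :
    IsClosed (Rel X Q L) := by
  have h1 : IsOpenQuotientMap (Prod.map (id : X → X) (QuotientGroup.mk : G → G ⧸ Q)) :=
    IsOpenQuotientMap.prodMap IsOpenQuotientMap.id QuotientGroup.isOpenQuotientMap_mk
  rw [← h1.isQuotientMap.isClosed_preimage]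
  have h2 : Prod.map (id : X → X) (QuotientGroup.mk : G → G ⧸ Q) ⁻¹' Rel X Q L =
      ⋂ l ∈ L, {p : X × G | (p.2 * l * p.2⁻¹) • p.1 = p.1} := by
    ext ⟨x, g⟩
    simp only [Set.mem_preimage, Prod.map_apply, id_eq, Set.mem_iInter, Set.mem_setOf_eq]
    exact rel_iff hL x g
  rw [h2]
  refine isClosed_biInter fun l _ => isClosed_eq ?_ continuous_fst
  exact ((continuous_snd.mul continuous_const).mul continuous_snd.inv).smul continuous_fst

theorem isClosed_fx {Q : Subgroup G} {L : Set G} [CompactSpace (G ⧸ Q)]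
    (hL : ∀ q ∈ Q, ∀ l ∈ L, q * l * q⁻¹ ∈ L) : IsClosed (Fx X L) := by
  have h1 : Fx X L = Prod.fst '' Rel X Q L := by
    ext x
    constructor
    · rintro ⟨g, hg⟩
      exact ⟨(x, (g : G ⧸ Q)), (rel_iff hL x g).2 hg, rfl⟩
    · rintro ⟨⟨x', c⟩, h, rfl⟩
      obtain ⟨g, rfl⟩ := QuotientGroup.mk_surjective c
      exact ⟨g, (rel_iff hL x' g).1 h⟩
  rw [h1]
  exact isClosedMap_fst_of_compactSpace _ (isClosed_rel hL)

theorem smul_fx {L : Set G} {x : X} (h : x ∈ Fx X L) (k : G) : k • x ∈ Fx X L := by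
  obtain ⟨g, hg⟩ := h
  refine ⟨k * g, fun l hl => ?_⟩
  have h1 : (k * g * l * (k * g)⁻¹) • k • x = k • (g * l * g⁻¹) • x := by
    rw [smul_smul, smul_smul]
    congr 1
    group
  rw [h1, hg l hl]

theorem continuousOn_of_rel {Q : Subgroup G} {L : Set G} [CompactSpace (G ⧸ Q)]
    (hL : ∀ q ∈ Q, ∀ l ∈ L, q * l * q⁻¹ ∈ L) {S : Set X} {f : X → G ⧸ Q}
    (hf : ∀ x ∈ S, ∀ c, (x, c) ∈ Rel X Q L ↔ c = f x) : ContinuousOn f S := by
  rw [continuousOn_iff_isClosed]
  intro C hC
  refine ⟨Prod.fst '' (Rel X Q L ∩ Prod.snd ⁻¹' C), isClosedMap_fst_of_compactSpace _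
    ((isClosed_rel hL).inter (hC.preimage continuous_snd)), ?_⟩
  ext x
  constructor
  · rintro ⟨h1, h2⟩
    exact ⟨⟨(x, f x), ⟨(hf x h2 _).2 rfl, h1⟩, rfl⟩, h2⟩
  · rintro ⟨⟨⟨x', c⟩, ⟨h1, h2⟩, rfl⟩, h3⟩
    have h4 := (hf x' h3 c).1 h1
    exact ⟨by rw [Set.mem_preimage, ← h4]; exact h2, h3⟩

/-- **The chain theorem.** -/
theorem chain {BC : Subgroup G → Set X → Prop} (h : IsAssembly BC) (m : ℕ) (Q : ℕ → Subgroup G)
    (L : ℕ → Set G) (hc : ∀ i < m, CompactSpace (G ⧸ Q i)) (hQ : ∀ i < m, IsClosed (Q i : Set G))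
    (hL : ∀ i < m, ∀ q ∈ Q i, ∀ l ∈ L i, q * l * q⁻¹ ∈ L i)
    (hb : ∀ i < m, ∀ (H : Subgroup G) (g : G), (∀ l ∈ L i, l ∈ H) → (∀ l ∈ L i, g * l * g⁻¹ ∈ H) →
      g ∈ Q i ∨ ∃ j, i < j ∧ j < m ∧ ∃ k : G, ∀ l ∈ L j, k * l * k⁻¹ ∈ H)
    (hBC : ∀ i < m, ∀ S : Set X, Invariant (Q i) S → IsLocallyClosed S →
      (∀ l ∈ L i, ∀ x ∈ S, l • x = x) → BC (Q i) S)
    (A : Set X) (hA : Invariant (⊤ : Subgroup G) A) (hA' : IsLocallyClosed A)
    (hX : ∀ x ∈ A, ∃ i < m, x ∈ Fx X (L i)) : BC ⊤ A := by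
  classical
  -- the closed sets
  let D : ℕ → Set X := fun i => ⋃ j ∈ (Finset.range m).filter (fun j => i ≤ j), Fx X (L j)
  have hmem : ∀ i x, x ∈ D i ↔ ∃ j, i ≤ j ∧ j < m ∧ x ∈ Fx X (L j) := by
    intro i x
    simp only [D, Set.mem_iUnion, Finset.mem_filter, Finset.mem_range, exists_prop]
    constructor
    · rintro ⟨j, ⟨h1, h2⟩, h3⟩
      exact ⟨j, h2, h1, h3⟩
    · rintro ⟨j, h1, h2, h3⟩
      exact ⟨j, ⟨h2, h1⟩, h3⟩
  have hD : ∀ i, IsClosed (D i) := by
    intro i
    refine isClosed_biUnion_finset fun j hj => ?_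
    have hj' := Finset.mem_range.1 (Finset.mem_filter.1 hj).1
    haveI := hc j hj'
    exact isClosed_fx (hL j hj')
  have hDi : ∀ i (g : G) x, x ∈ D i → g • x ∈ D i := by
    intro i g x hx
    obtain ⟨j, h1, h2, h3⟩ := (hmem i x).1 hx
    exact (hmem i _).2 ⟨j, h1, h2, smul_fx h3 g⟩
  have hDi' : ∀ i (g : G) x, g • x ∈ D i → x ∈ D i := by
    intro i g x hx
    have := hDi i g⁻¹ _ hx
    rwa [inv_smul_smul] at this
  have key : ∀ k i, i + k = m → BC ⊤ (A ∩ D i) := by
    intro k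
    induction k with
    | zero =>
      intro i hi
      have h1 : A ∩ D i = ∅ := by
        ext x
        simp only [Set.mem_inter_iff, Set.mem_empty_iff_false, iff_false, not_and]
        intro _ hx
        obtain ⟨j, h1, h2, _⟩ := (hmem i x).1 hx
        omega
      rw [h1]
      exact h.empty _ isClosed_univ
    | succ k ih =>
      intro i hi
      have him : i < m := by omega
      have ih' := ih (i + 1) (by omega)
      haveI := hc i him
      -- the stratum
      have hS : IsLocallyClosed ((A ∩ D i) \ D (i + 1)) := by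
        have h1 : (A ∩ D i) \ D (i + 1) = (A ∩ D i) ∩ (D (i + 1))ᶜ := rfl
        rw [h1]
        exact (hA'.inter (hD i).isLocallyClosed).inter (hD (i + 1)).isOpen_compl.isLocallyClosed
      have hSi : Invariant (⊤ : Subgroup G) ((A ∩ D i) \ D (i + 1)) := by
        rintro g hg x ⟨⟨h1, h2⟩, h3⟩
        exact ⟨⟨hA g hg x h1, hDi i g x h2⟩, fun h4 => h3 (hDi' _ g x h4)⟩
      have hfx : ∀ x ∈ (A ∩ D i) \ D (i + 1), x ∈ Fx X (L i) := by
        rintro x ⟨⟨h1, h2⟩, h3⟩
        obtain ⟨j, h4, h5, h6⟩ := (hmem i x).1 h2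
        rcases Nat.lt_or_ge i j with h7 | h7
        · exact absurd ((hmem (i + 1) x).2 ⟨j, h7, h5, h6⟩) h3
        · have : j = i := by omega
          rwa [this] at h6
      have huniq : ∀ x ∈ (A ∩ D i) \ D (i + 1), ∀ g₁ g₂ : G, (∀ l ∈ L i, (g₁ * l * g₁⁻¹) • x = x) →
          (∀ l ∈ L i, (g₂ * l * g₂⁻¹) • x = x) → (g₁ : G ⧸ Q i) = (g₂ : G ⧸ Q i) := by
        rintro x ⟨_, h3⟩ g₁ g₂ h1 h2
        rw [QuotientGroup.eq]
        have h4 := hb i him (stabilizer G (g₁⁻¹ • x)) (g₁⁻¹ * g₂) (fun l hl => ?_) (fun l hl => ?_)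
        · rcases h4 with h4 | ⟨j, h5, h6, k', h7⟩
          · exact h4
          · refine absurd ((hmem (i + 1) x).2 ⟨j, h5, h6, g₁ * k', fun l hl => ?_⟩) h3
            have h8 := h7 l hl
            rw [mem_stabilizer_iff] at h8
            have h9 : (g₁ * k' * l * (g₁ * k')⁻¹) • x = g₁ • (k' * l * k'⁻¹) • g₁⁻¹ • x := by
              rw [smul_smul, smul_smul]
              congr 1
              group
            rw [h9, h8, smul_inv_smul]
        · rw [mem_stabilizer_iff, smul_smul]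
          have h5 := h1 l hl
          have h6 : (l * g₁⁻¹) • x = g₁⁻¹ • (g₁ * l * g₁⁻¹) • x := by
            rw [smul_smul]
            congr 1
            group
          rw [h6, h5]
        · rw [mem_stabilizer_iff, smul_smul]
          have h5 := h2 l hl
          have h6 : (g₁⁻¹ * g₂ * l * (g₁⁻¹ * g₂)⁻¹ * g₁⁻¹) • x = g₁⁻¹ • (g₂ * l * g₂⁻¹) • x := by
            rw [smul_smul]
            congr 1
            group
          rw [h6, h5]
      let f : X → G ⧸ Q i := fun x =>
        if hx : ∃ g : G, ∀ l ∈ L i, (g * l * g⁻¹) • x = x then ((hx.choose : G) : G ⧸ Q i)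
          else ((1 : G) : G ⧸ Q i)
      have hf : ∀ x ∈ (A ∩ D i) \ D (i + 1), ∀ g : G,
          (∀ l ∈ L i, (g * l * g⁻¹) • x = x) ↔ (g : G ⧸ Q i) = f x := by
        intro x hx g
        have hx' : ∃ g : G, ∀ l ∈ L i, (g * l * g⁻¹) • x = x := hfx x hx
        have h1 : f x = ((hx'.choose : G) : G ⧸ Q i) := dif_pos hx'
        have h2 := hx'.choose_spec
        constructor
        · intro h3
          rw [h1]
          exact huniq x hx _ _ h3 h2
        · intro h3
          rw [h1] at h3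
          exact (rel_iff (hL i him) x hx'.choose).2 h2 g h3
      have hcont : ContinuousOn f ((A ∩ D i) \ D (i + 1)) := by
        refine continuousOn_of_rel (hL i him) fun x hx c => ?_
        obtain ⟨g, rfl⟩ := QuotientGroup.mk_surjective c
        rw [rel_iff (hL i him)]
        exact hf x hx g
      have hstratum : BC ⊤ ((A ∩ D i) \ D (i + 1)) := by
        refine h.induced ⊤ (Q i) isClosed_univ (hQ i him) le_top _ hSi hS f hcont ?_ ?_ ?_
        · intro g _ x hx
          obtain ⟨k', hk'⟩ := hfx x hx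
          have h1 := (hf x hx k').1 hk'
          have h2 : ((g * k' : G) : G ⧸ Q i) = f (g • x) := by
            refine (hf _ (hSi g trivial x hx) _).1 fun l hl => ?_
            have h3 : (g * k' * l * (g * k')⁻¹) • g • x = g • (k' * l * k'⁻¹) • x := by
              rw [smul_smul, smul_smul]
              congr 1
              group
            rw [h3, hk' l hl]
          rw [← h2, ← h1]
          rfl
        · intro x hx
          obtain ⟨k', hk'⟩ := hfx x hx
          exact ⟨k', trivial, ((hf x hx k').1 hk').symm⟩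
        · refine hBC i him _ ?_ ?_ ?_
          · rintro q hq x ⟨hx, hx'⟩
            refine ⟨hSi q trivial x hx, ?_⟩
            have h1 : ((1 : G) : G ⧸ Q i) = f x := (Set.mem_singleton_iff.1 hx').symm
            have h2 := (hf x hx 1).2 h1
            have h3 : (q : G ⧸ Q i) = f (q • x) := by
              refine (hf _ (hSi q trivial x hx) _).1 fun l hl => ?_
              have h3 : (q * l * q⁻¹) • q • x = q • (1 * l * 1⁻¹) • x := by
                rw [smul_smul, smul_smul]
                congr 1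
                group
              rw [h3, h2 l hl]
            rw [Set.mem_preimage, Set.mem_singleton_iff, ← h3, QuotientGroup.eq]
            simpa using hq
          · obtain ⟨u, hu, h1⟩ := continuousOn_iff_isClosed.1 hcont
              {((1 : G) : G ⧸ Q i)} (by
                have : IsClosed ((QuotientGroup.mk : G → G ⧸ Q i) ⁻¹' {((1 : G) : G ⧸ Q i)}) := by
                  have h2 : (QuotientGroup.mk : G → G ⧸ Q i) ⁻¹' {((1 : G) : G ⧸ Q i)} = (Q i : Set G) := by
                    ext g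
                    rw [Set.mem_preimage, Set.mem_singleton_iff, eq_comm, QuotientGroup.eq]
                    simp
                  rw [h2]
                  exact hQ i him
                exact (QuotientGroup.isOpenQuotientMap_mk.isQuotientMap.isClosed_preimage).1 this)
            have h2 : (A ∩ D i) \ D (i + 1) ∩ f ⁻¹' {((1 : G) : G ⧸ Q i)} =
                (A ∩ D i) \ D (i + 1) ∩ u := by
              rw [Set.inter_comm, h1, Set.inter_comm]
            rw [h2]
            exact hS.inter hu.isLocallyClosed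
          · rintro l hl x ⟨hx, hx'⟩
            have h1 : ((1 : G) : G ⧸ Q i) = f x := (Set.mem_singleton_iff.1 hx').symm
            have h2 := (hf x hx 1).2 h1 l hl
            simpa using h2
      have hsub : ∀ x, x ∈ D (i + 1) → x ∈ D i := by
        intro x hx
        obtain ⟨j, h1, h2, h3⟩ := (hmem _ x).1 hx
        exact (hmem _ x).2 ⟨j, by omega, h2, h3⟩
      have hun : ((A ∩ D i) \ D (i + 1)) ∪ (A ∩ D (i + 1)) = A ∩ D i := by
        ext x
        simp only [Set.mem_union, Set.mem_diff, Set.mem_inter_iff]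
        constructor
        · rintro (⟨h1, _⟩ | ⟨h1, h2⟩)
          · exact h1
          · exact ⟨h1, hsub x h2⟩
        · rintro ⟨h1, h2⟩
          by_cases h3 : x ∈ D (i + 1)
          · exact Or.inr ⟨h1, h3⟩
          · exact Or.inl ⟨⟨h1, h2⟩, h3⟩
      rw [← hun]
      refine h.excision ⊤ _ _ isClosed_univ hSi ?_ hS (hA'.inter (hD _).isLocallyClosed) ?_ ?_ ?_
        hstratum ih'
      · rintro g hg x ⟨h1, h2⟩
        exact ⟨hA g hg x h1, hDi _ g x h2⟩
      · rw [hun]
        exact hA'.inter (hD i).isLocallyClosed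
      · rw [Set.disjoint_left]
        rintro x ⟨_, h1⟩ ⟨_, h2⟩
        exact h1 h2
      · exact ⟨(D (i + 1))ᶜ, (hD _).isOpen_compl, by rw [hun]; rfl⟩
  have h0 := key m 0 (by omega)
  have h1 : A ∩ D 0 = A := by
    ext x
    simp only [Set.mem_inter_iff, and_iff_left_iff_imp]
    intro hx
    obtain ⟨i, h1, h2⟩ := hX x hx
    exact (hmem 0 x).2 ⟨i, Nat.zero_le _, h1, h2⟩
  rwa [h1] at h0

end

end Pool.Agent.V7H36.HS
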