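import Mathlib

/-!
# Transvections of the real special linear group
-/

set_option autoImplicit false

open Matrix

namespace Pool.Agent.V7H36.HS

section

variable {n : Type} [Fintype n] [DecidableEq n]

theorem det_tv (w φ : n → ℝ) (h : φ ⬝ᵥ w = 0) : (1 + vecMulVec w φ).det = 1 := by
  rw [vecMulVec_eq Unit, det_one_add_replicateCol_mul_replicateRow, h, add_zero]

/-- the transvection `1 + w φ` if `φ (w) = 0` -/
noncomputable def tv (w φ : n → ℝ) : SpecialLinearGroup n ℝ :=
  if h : φ ⬝ᵥ w = 0 then ⟨1 + vecMulVec w φ, det_tv w φ h⟩ else 1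

theorem tv_coe {w φ : n → ℝ} (h : φ ⬝ᵥ w = 0) :
    ((tv w φ : SpecialLinearGroup n ℝ) : Matrix n n ℝ) = 1 + vecMulVec w φ := by
  rw [tv, dif_pos h]

theorem tv_apply {w φ : n → ℝ} (h : φ ⬝ᵥ w = 0) (v : n → ℝ) :
    (tv w φ : SpecialLinearGroup n ℝ).1 *ᵥ v = v + (φ ⬝ᵥ v) • w := by
  rw [tv_coe h, add_mulVec, one_mulVec, vecMulVec_mulVec, op_smul_eq_smul]

theorem tv_apply' {w φ : n → ℝ} (h : φ ⬝ᵥ w = 0) (ψ : n → ℝ) :
    ψ ᵥ* (tv w φ : SpecialLinearGroup n ℝ).1 = ψ + (ψ ⬝ᵥ w) • φ := by
  rw [tv_coe h, vecMul_add, vecMul_one, vecMul_vecMulVec]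

theorem mul_inv_coe (g : SpecialLinearGroup n ℝ) : g.1 * (g⁻¹).1 = 1 := by
  have h := congrArg Subtype.val (mul_inv_cancel g)
  exact h

theorem inv_mul_coe (g : SpecialLinearGroup n ℝ) : (g⁻¹).1 * g.1 = 1 := by
  have h := congrArg Subtype.val (inv_mul_cancel g)
  exact h

theorem pairing (g : SpecialLinearGroup n ℝ) (w φ : n → ℝ) :
    (φ ᵥ* (g⁻¹).1) ⬝ᵥ (g.1 *ᵥ w) = φ ⬝ᵥ w := by
  rw [← dotProduct_mulVec, mulVec_mulVec, inv_mul_coe, one_mulVec]

theorem conj_tv (g : SpecialLinearGroup n ℝ) (w φ : n → ℝ) (h : φ ⬝ᵥ w = 0) :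
    g * tv w φ * g⁻¹ = tv (g.1 *ᵥ w) (φ ᵥ* (g⁻¹).1) := by
  have h1 : (φ ᵥ* (g⁻¹).1) ⬝ᵥ (g.1 *ᵥ w) = 0 := by rw [pairing, h]
  apply Subtype.ext
  change g.1 * (tv w φ).1 * (g⁻¹).1 = _
  rw [tv_coe h, tv_coe h1, mul_add, mul_one, add_mul, mul_inv_coe, mul_vecMulVec, vecMulVec_mul]

theorem tv_smul (c : ℝ) (w φ : n → ℝ) (h : φ ⬝ᵥ w = 0) : (tv (c • w) φ : SpecialLinearGroup n ℝ) =
    tv w (c • φ) := by
  have h1 : φ ⬝ᵥ (c • w) = 0 := by rw [dotProduct_smul, h, smul_zero]
  have h2 : (c • φ) ⬝ᵥ w = 0 := by rw [smul_dotProduct, h, smul_zero]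
  apply Subtype.ext
  rw [tv_coe h1, tv_coe h2]
  congr 1
  ext i j
  simp only [vecMulVec_apply, Pi.smul_apply, smul_eq_mul]
  ring

/-! ### Generation -/

/-- the matrix is in the subgroup -/
def In (H : Subgroup (SpecialLinearGroup n ℝ)) (M : Matrix n n ℝ) : Prop := ∃ h ∈ H, h.1 = M

theorem In.mul {H : Subgroup (SpecialLinearGroup n ℝ)} {M N : Matrix n n ℝ} (h : In H M)
    (h' : In H N) : In H (M * N) := by
  obtain ⟨g, hg, rfl⟩ := h
  obtain ⟨g', hg', rfl⟩ := h'
  exact ⟨g * g', H.mul_mem hg hg', rfl⟩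

theorem In.one (H : Subgroup (SpecialLinearGroup n ℝ)) : In H 1 := ⟨1, H.one_mem, rfl⟩

theorem in_single {H : Subgroup (SpecialLinearGroup n ℝ)}
    (hH : ∀ w φ : n → ℝ, φ ⬝ᵥ w = 0 → tv w φ ∈ H) {i j : n} (hij : i ≠ j) (c : ℝ) :
    In H (1 + single i j c) := by
  have h1 : (Pi.single j (1 : ℝ)) ⬝ᵥ (Pi.single i c : n → ℝ) = 0 := by
    rw [dotProduct_single, Pi.single_eq_of_ne hij, zero_mul]
  refine ⟨_, hH _ _ h1, ?_⟩
  rw [tv_coe h1]
  congr 1
  ext a b
  simp only [vecMulVec_apply, single, of_apply, Pi.single_apply]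
  rcases eq_or_ne a i with rfl | ha
  · rcases eq_or_ne b j with rfl | hb
    · simp
    · simp [hb, hb.symm]
  · simp [ha, ha.symm]

theorem in_w {H : Subgroup (SpecialLinearGroup n ℝ)}
    (hH : ∀ w φ : n → ℝ, φ ⬝ᵥ w = 0 → tv w φ ∈ H) {i j : n} (hij : i ≠ j) {a : ℝ} (ha : a ≠ 0) :
    In H (1 - single i i 1 - single j j 1 + single i j a - single j i a⁻¹) := by
  have h1 := ((in_single hH hij a).mul (in_single hH hij.symm (-a⁻¹))).mul (in_single hH hij a)
  have h2 : (1 + single i j a) * (1 + single j i (-a⁻¹)) * (1 + single i j a) =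
      1 - single i i 1 - single j j 1 + single i j a - single j i a⁻¹ := by
    have e1 : (single i j a : Matrix n n ℝ) * single j i (-a⁻¹) = -single i i 1 := by
      rw [single_mul_single_same, mul_neg, mul_inv_cancel₀ ha]
      exact (single_neg _ _ _).symm
    have e2 : (single j i (-a⁻¹) : Matrix n n ℝ) * single i j a = -single j j 1 := by
      rw [single_mul_single_same, neg_mul, inv_mul_cancel₀ ha]
      exact (single_neg _ _ _).symm
    have e3 : (single i j a : Matrix n n ℝ) * single i j a = 0 :=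
      single_mul_single_of_ne _ _ _ _ hij.symm _
    have e4 : (single i i (1 : ℝ) : Matrix n n ℝ) * single i j a = single i j a := by
      rw [single_mul_single_same, one_mul]
    have e5 : (single j i (-a⁻¹) : Matrix n n ℝ) = -single j i a⁻¹ := (single_neg _ _ _).symm
    calc (1 + single i j a) * (1 + single j i (-a⁻¹)) * (1 + single i j a)
        = 1 + single i j a + single j i (-a⁻¹) + single i j a * single j i (-a⁻¹) +
          (single i j a + single i j a * single i j a + single j i (-a⁻¹) * single i j a +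
            single i j a * single j i (-a⁻¹) * single i j a) := by noncomm_ring
      _ = _ := by
        rw [e1, e2, e3, neg_mul, e4, e5]
        abel
  rw [h2] at h1
  exact h1

theorem in_diag2 {H : Subgroup (SpecialLinearGroup n ℝ)}
    (hH : ∀ w φ : n → ℝ, φ ⬝ᵥ w = 0 → tv w φ ∈ H) {i j : n} (hij : i ≠ j) {a : ℝ} (ha : a ≠ 0) :
    In H (diagonal fun k => if k = i then a else if k = j then a⁻¹ else 1) := by
  have h1 := (in_w hH hij ha).mul (in_w hH hij (neg_ne_zero.2 one_ne_zero : (-1 : ℝ) ≠ 0))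
  have h2 : (1 - single i i 1 - single j j 1 + single i j a - single j i a⁻¹ : Matrix n n ℝ) *
      (1 - single i i 1 - single j j 1 + single i j (-1) - single j i (-1)⁻¹) =
      diagonal fun k => if k = i then a else if k = j then a⁻¹ else 1 := by
    have e1 : (single i j (-1 : ℝ) : Matrix n n ℝ) = -single i j 1 := (single_neg _ _ _).symm
    have e2 : (single j i ((-1 : ℝ)⁻¹) : Matrix n n ℝ) = -single j i 1 := by
      rw [show ((-1 : ℝ)⁻¹) = -1 by norm_num]
      exact (single_neg _ _ _).symm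
    rw [e1, e2]
    have s1 : ∀ (p q r : n) (x y : ℝ), (single p q x : Matrix n n ℝ) * single q r y =
      single p r (x * y) := fun p q r x y => single_mul_single_same _ _ _ _ _
    have s2 : ∀ (p q : n) (x y : ℝ), (single p i x : Matrix n n ℝ) * single j q y = 0 :=
      fun p q x y => single_mul_single_of_ne _ _ _ _ hij _
    have s3 : ∀ (p q : n) (x y : ℝ), (single p j x : Matrix n n ℝ) * single i q y = 0 :=
      fun p q x y => single_mul_single_of_ne _ _ _ _ hij.symm _
    have h3 : (1 - single i i 1 - single j j 1 + single i j a - single j i a⁻¹ : Matrix n n ℝ) *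
        (1 - single i i 1 - single j j 1 + -single i j 1 - -single j i 1) =
        1 - single i i 1 - single j j 1 + single i i a + single j j a⁻¹ := by
      simp only [sub_mul, mul_sub, add_mul, mul_add, mul_one, one_mul, s1, s2, s3, neg_mul, mul_neg,
        sub_neg_eq_add]
      abel
    rw [h3]
    ext p q
    simp only [diagonal_apply, Matrix.sub_apply, Matrix.add_apply, Matrix.one_apply, single_apply]
    by_cases hpq : p = q
    · subst hpq
      by_cases h5 : p = i
      · subst h5
        simp [hij, hij.symm]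
      · by_cases h6 : p = j
        · subst h6
          simp [h5, Ne.symm h5]
        · simp [h5, h6, Ne.symm h5, Ne.symm h6]
    · simp only [if_neg hpq]
      have h5 : ¬ (i = p ∧ i = q) := fun h => hpq (h.1.symm.trans h.2)
      have h6 : ¬ (j = p ∧ j = q) := fun h => hpq (h.1.symm.trans h.2)
      simp [h5, h6]
  rw [h2] at h1
  exact h1

theorem in_diag {H : Subgroup (SpecialLinearGroup n ℝ)}
    (hH : ∀ w φ : n → ℝ, φ ⬝ᵥ w = 0 → tv w φ ∈ H) (o : n) (D : n → ℝ) (hD : ∀ k, D k ≠ 0)
    (s : Finset n) (hs : o ∉ s) :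
    In H (diagonal fun k => if k = o then (∏ i ∈ s, D i)⁻¹ else if k ∈ s then D k else 1) := by
  induction s using Finset.induction_on with
  | empty =>
    have h1 : (diagonal fun k => if k = o then (∏ i ∈ (∅ : Finset n), D i)⁻¹ else
        if k ∈ (∅ : Finset n) then D k else 1) = (1 : Matrix n n ℝ) := by
      rw [← diagonal_one]
      congr 1
      ext k
      simp
    rw [h1]
    exact In.one H
  | insert a s ha ih =>
    have hao : a ≠ o := fun h => hs (by rw [← h]; exact Finset.mem_insert_self _ _)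
    have hos : o ∉ s := fun h => hs (Finset.mem_insert_of_mem h)
    have h1 := (in_diag2 hH hao (hD a)).mul (ih hos)
    rw [diagonal_mul_diagonal] at h1
    have h0 : (fun k => if k = o then (∏ i ∈ insert a s, D i)⁻¹ else
        if k ∈ insert a s then D k else 1) = fun k => (if k = a then D a else
          if k = o then (D a)⁻¹ else 1) * (if k = o then (∏ i ∈ s, D i)⁻¹ else
            if k ∈ s then D k else 1) := by
     ext k
     rw [Finset.prod_insert ha, mul_inv]
     by_cases h2 : k = o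
     · subst h2
       simp [hao.symm]
     · by_cases h3 : k = a
       · subst h3
         simp [hao, ha]
       · simp [h2, h3]
    rw [h0]
    exact h1

theorem eq_top_of_tv [Nonempty n] {H : Subgroup (SpecialLinearGroup n ℝ)}
    (hH : ∀ w φ : n → ℝ, φ ⬝ᵥ w = 0 → tv w φ ∈ H) : H = ⊤ := by
  classical
  rw [eq_top_iff]
  rintro g -
  obtain ⟨o⟩ := (inferInstance : Nonempty n)
  obtain ⟨L, L', D, h1⟩ := Pivot.exists_list_transvec_mul_diagonal_mul_list_transvec g.1
  have hlist : ∀ L : List (TransvectionStruct n ℝ), In H (L.map TransvectionStruct.toMatrix).prod := by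
    intro L
    induction L with
    | nil => exact In.one H
    | cons t L ih =>
      rw [List.map_cons, List.prod_cons]
      exact (in_single hH t.hij t.c).mul ih
  have hdet : ∏ k, D k = 1 := by
    have h2 := g.2
    change g.1.det = 1 at h2
    rw [h1, det_mul, det_mul, TransvectionStruct.det_toMatrix_prod, TransvectionStruct.det_toMatrix_prod,
      det_diagonal] at h2
    simpa using h2
  have hD : ∀ k, D k ≠ 0 := by
    intro k hk
    rw [Finset.prod_eq_zero (Finset.mem_univ k) hk] at hdet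
    exact zero_ne_one hdet
  have hdiag : In H (diagonal D) := by
    have h2 := in_diag hH o D hD (Finset.univ.erase o) (Finset.notMem_erase _ _)
    have h0 : D = fun k => if k = o then (∏ i ∈ Finset.univ.erase o, D i)⁻¹ else
        if k ∈ Finset.univ.erase o then D k else 1 := by
      ext k
      by_cases h3 : k = o
      · subst h3
        rw [if_pos rfl]
        have h4 := Finset.mul_prod_erase Finset.univ D (Finset.mem_univ k)
        rw [hdet] at h4
        exact eq_inv_of_mul_eq_one_left h4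
      · simp [h3]
    rw [h0]
    exact h2
  obtain ⟨h, hh, h2⟩ := ((hlist L).mul hdiag).mul (hlist L')
  have h3 : g = h := Subtype.ext (by rw [h1, h2])
  rw [h3]
  exact hh

/-! ### The group is connected -/

theorem continuous_tv (w φ : n → ℝ) (h : φ ⬝ᵥ w = 0) :
    Continuous fun t : ℝ => (tv (t • w) φ : SpecialLinearGroup n ℝ) := by
  refine (SpecialLinearGroup.isClosedEmbedding_val (n := n) (R := ℝ)).isInducing.continuous_iff.2 ?_
  have h1 : ∀ t : ℝ, ((tv (t • w) φ : SpecialLinearGroup n ℝ) : Matrix n n ℝ) =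
      1 + t • vecMulVec w φ := by
    intro t
    have h2 : φ ⬝ᵥ (t • w) = 0 := by rw [dotProduct_smul, h, smul_zero]
    rw [tv_coe h2]
    congr 1
    ext i j
    simp only [Matrix.smul_apply, vecMulVec_apply, Pi.smul_apply, smul_eq_mul]
    ring
  have h3 : Continuous fun t : ℝ => (1 : Matrix n n ℝ) + t • vecMulVec w φ :=
    continuous_const.add (continuous_id.smul continuous_const)
  exact h3.congr fun t => (h1 t).symm

instance connected_SL [Nonempty n] : ConnectedSpace (SpecialLinearGroup n ℝ) := by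
  have h1 : Subgroup.connectedComponentOfOne (SpecialLinearGroup n ℝ) = ⊤ := by
    refine eq_top_of_tv fun w φ h => ?_
    have h2 : IsPreconnected (Set.range fun t : ℝ => (tv (t • w) φ : SpecialLinearGroup n ℝ)) :=
      isPreconnected_range (continuous_tv w φ h)
    refine h2.subset_connectedComponent (x := 1) ⟨0, ?_⟩ ⟨1, by simp⟩
    apply Subtype.ext
    change (tv ((0 : ℝ) • w) φ).1 = 1
    rw [tv_coe (by simp)]
    simp
  have h3 : connectedComponent (1 : SpecialLinearGroup n ℝ) = Set.univ := by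
    have h4 : ((Subgroup.connectedComponentOfOne (SpecialLinearGroup n ℝ) :
      Subgroup (SpecialLinearGroup n ℝ)) : Set (SpecialLinearGroup n ℝ)) = Set.univ := by
      rw [h1]
      rfl
    exact h4
  exact connectedSpace_iff_connectedComponent.2 ⟨1, h3⟩

end

end Pool.Agent.V7H36.HS
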