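import Mathlib

/-!
# The stabilizers of vectors, linear forms, lines and hyperplanes in `SL_{m+1}(ℝ)`
-/

set_option autoImplicit false

open Matrix

namespace Pool.Agent.V7H36.HS

/-- the group `SL_{m+1}(ℝ)` -/
abbrev SL (m : ℕ) : Type := SpecialLinearGroup (Fin (m + 1)) ℝ

section

variable {m : ℕ}

/-- the stabilizer of the vector `v` -/
def vecStab (v : Fin (m + 1) → ℝ) : Subgroup (SL m) where
  carrier := {g | g.1 *ᵥ v = v}
  mul_mem' := by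
    intro a b ha hb
    have ha : a.1 *ᵥ v = v := ha
    have hb : b.1 *ᵥ v = v := hb
    change (a.1 * b.1) *ᵥ v = v
    rw [← mulVec_mulVec, hb, ha]
  one_mem' := one_mulVec v
  inv_mem' := by
    intro a ha
    have ha : a.1 *ᵥ v = v := ha
    have h1 : (a⁻¹).1 * a.1 = 1 := congrArg Subtype.val (inv_mul_cancel a)
    change (a⁻¹).1 *ᵥ v = v
    have h2 : (a⁻¹).1 *ᵥ (a.1 *ᵥ v) = v := by rw [mulVec_mulVec, h1, one_mulVec]
    rwa [ha] at h2

/-- the stabilizer of the linear form `φ` -/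
def formStab (φ : Fin (m + 1) → ℝ) : Subgroup (SL m) where
  carrier := {g | φ ᵥ* g.1 = φ}
  mul_mem' := by
    intro a b ha hb
    have ha : φ ᵥ* a.1 = φ := ha
    have hb : φ ᵥ* b.1 = φ := hb
    change φ ᵥ* (a.1 * b.1) = φ
    rw [← vecMul_vecMul, ha, hb]
  one_mem' := vecMul_one φ
  inv_mem' := by
    intro a ha
    have ha : φ ᵥ* a.1 = φ := ha
    have h1 : a.1 * (a⁻¹).1 = 1 := congrArg Subtype.val (mul_inv_cancel a)
    change φ ᵥ* (a⁻¹).1 = φ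
    have h2 : (φ ᵥ* a.1) ᵥ* (a⁻¹).1 = φ := by rw [vecMul_vecMul, h1, vecMul_one]
    rwa [ha] at h2

/-- the stabilizer of the line of the vector `v` -/
def lineStab (v : Fin (m + 1) → ℝ) : Subgroup (SL m) where
  carrier := {g | ∃ c : ℝ, c ≠ 0 ∧ g.1 *ᵥ v = c • v}
  mul_mem' := by
    rintro a b ⟨c, hc, ha⟩ ⟨d, hd, hb⟩
    refine ⟨d * c, mul_ne_zero hd hc, ?_⟩
    change (a.1 * b.1) *ᵥ v = _
    rw [← mulVec_mulVec, hb, mulVec_smul, ha, smul_smul]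
  one_mem' := ⟨1, one_ne_zero, by rw [one_smul]; exact one_mulVec v⟩
  inv_mem' := by
    rintro a ⟨c, hc, ha⟩
    have h1 : (a⁻¹).1 * a.1 = 1 := congrArg Subtype.val (inv_mul_cancel a)
    refine ⟨c⁻¹, inv_ne_zero hc, ?_⟩
    have h2 : (a⁻¹).1 *ᵥ (a.1 *ᵥ v) = v := by rw [mulVec_mulVec, h1, one_mulVec]
    rw [ha, mulVec_smul] at h2
    rw [← h2, smul_smul, inv_mul_cancel₀ hc, one_smul, h2]

/-- the stabilizer of the hyperplane of the zeros of the linear form `φ` -/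
def planeStab (φ : Fin (m + 1) → ℝ) : Subgroup (SL m) where
  carrier := {g | ∃ c : ℝ, c ≠ 0 ∧ φ ᵥ* g.1 = c • φ}
  mul_mem' := by
    rintro a b ⟨c, hc, ha⟩ ⟨d, hd, hb⟩
    refine ⟨c * d, mul_ne_zero hc hd, ?_⟩
    change φ ᵥ* (a.1 * b.1) = _
    rw [← vecMul_vecMul, ha, smul_vecMul, hb, smul_smul]
  one_mem' := ⟨1, one_ne_zero, by rw [one_smul]; exact vecMul_one φ⟩
  inv_mem' := by
    rintro a ⟨c, hc, ha⟩
    have h1 : a.1 * (a⁻¹).1 = 1 := congrArg Subtype.val (mul_inv_cancel a)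
    refine ⟨c⁻¹, inv_ne_zero hc, ?_⟩
    have h2 : (φ ᵥ* a.1) ᵥ* (a⁻¹).1 = φ := by rw [vecMul_vecMul, h1, vecMul_one]
    rw [ha, smul_vecMul] at h2
    rw [← h2, smul_smul, inv_mul_cancel₀ hc, one_smul, h2]

end

end Pool.Agent.V7H36.HS
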