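import Mathlib
import Pool.Agent.V7H36.HS.Mat
import Pool.Agent.V7H36.HS.Stab

/-!
# Subgroups of the real special linear group which contain many transvections
-/

set_option autoImplicit false

open Matrix

namespace Pool.Agent.V7H36.HS

section

variable {n : Type} [Fintype n] [DecidableEq n]

theorem dot_self_eq_zero {v : n → ℝ} (h : v ⬝ᵥ v = 0) : v = 0 := dotProduct_self_eq_zero.1 h

/-- a linear form which vanishes on `v'` and has the value `1` at `v` -/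
theorem exists_form {v v' : n → ℝ} (h : ∀ c : ℝ, v ≠ c • v') :
    ∃ φ : n → ℝ, φ ⬝ᵥ v' = 0 ∧ φ ⬝ᵥ v = 1 := by
  by_cases hv' : v' = 0
  · subst hv'
    have h8 : v ≠ 0 := by
      intro h9
      exact h 0 (by rw [h9, zero_smul])
    have h9 : v ⬝ᵥ v ≠ 0 := fun h10 => h8 (dot_self_eq_zero h10)
    refine ⟨(v ⬝ᵥ v)⁻¹ • v, by simp, ?_⟩
    rw [smul_dotProduct, smul_eq_mul, inv_mul_cancel₀ h9]
  · have h6 : v' ⬝ᵥ v' ≠ 0 := fun h => hv' (dot_self_eq_zero h)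
    let φ : n → ℝ := (v' ⬝ᵥ v') • v - (v ⬝ᵥ v') • v'
    have h1 : φ ⬝ᵥ v' = 0 := by
      simp only [φ, sub_dotProduct, smul_dotProduct, smul_eq_mul]
      ring
    have h2 : φ ⬝ᵥ v ≠ 0 := by
      intro h2
      have h3 : φ ⬝ᵥ φ = 0 := by
        have h4 : φ ⬝ᵥ φ = (v' ⬝ᵥ v') * (φ ⬝ᵥ v) - (v ⬝ᵥ v') * (φ ⬝ᵥ v') := by
          change φ ⬝ᵥ ((v' ⬝ᵥ v') • v - (v ⬝ᵥ v') • v') = _
          rw [dotProduct_sub, dotProduct_smul, dotProduct_smul, smul_eq_mul, smul_eq_mul]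
        rw [h4, h1, h2]
        ring
      have h5 : φ = 0 := dot_self_eq_zero h3
      apply h ((v' ⬝ᵥ v')⁻¹ * (v ⬝ᵥ v'))
      have h7 : (v' ⬝ᵥ v') • v = (v ⬝ᵥ v') • v' := sub_eq_zero.1 h5
      rw [mul_smul, ← h7, smul_smul, inv_mul_cancel₀ h6, one_smul]
    refine ⟨(φ ⬝ᵥ v)⁻¹ • φ, ?_, ?_⟩
    · rw [smul_dotProduct, h1, smul_zero]
    · rw [smul_dotProduct, smul_eq_mul, inv_mul_cancel₀ h2]

/-- all transvections with center `v` are in `H` -/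
def Cen (H : Subgroup (SpecialLinearGroup n ℝ)) (v : n → ℝ) : Prop := ∀ φ, φ ⬝ᵥ v = 0 → tv v φ ∈ H

/-- all transvections with axis `φ` are in `H` -/
def Axi (H : Subgroup (SpecialLinearGroup n ℝ)) (φ : n → ℝ) : Prop := ∀ v, φ ⬝ᵥ v = 0 → tv v φ ∈ H

theorem tv_zero (φ : n → ℝ) : (tv 0 φ : SpecialLinearGroup n ℝ) = 1 := by
  apply Subtype.ext
  rw [tv_coe (by simp)]
  simp

theorem tv_zero' (v : n → ℝ) : (tv v 0 : SpecialLinearGroup n ℝ) = 1 := by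
  apply Subtype.ext
  rw [tv_coe (by simp)]
  simp

theorem Cen.smul {H : Subgroup (SpecialLinearGroup n ℝ)} {v : n → ℝ} (h : Cen H v) (c : ℝ) :
    Cen H (c • v) := by
  intro φ hφ
  by_cases hc : c = 0
  · subst hc
    rw [zero_smul, tv_zero]
    exact H.one_mem
  · have h1 : φ ⬝ᵥ v = 0 := by
      rw [dotProduct_smul, smul_eq_mul] at hφ
      exact (mul_eq_zero.1 hφ).resolve_left hc
    rw [tv_smul c v φ h1]
    exact h _ (by rw [smul_dotProduct, h1, smul_zero])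

theorem Axi.smul {H : Subgroup (SpecialLinearGroup n ℝ)} {φ : n → ℝ} (h : Axi H φ) (c : ℝ) :
    Axi H (c • φ) := by
  intro v hv
  by_cases hc : c = 0
  · subst hc
    rw [zero_smul, tv_zero']
    exact H.one_mem
  · have h1 : φ ⬝ᵥ v = 0 := by
      rw [smul_dotProduct, smul_eq_mul] at hv
      exact (mul_eq_zero.1 hv).resolve_left hc
    rw [← tv_smul c v φ h1]
    exact h _ (by rw [dotProduct_smul, h1, smul_zero])

theorem Cen.add {H : Subgroup (SpecialLinearGroup n ℝ)} {v v' : n → ℝ} (h : Cen H v)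
    (h' : Cen H v') : Cen H (v + v') := by
  by_cases hd : ∀ c : ℝ, v ≠ c • v'
  · obtain ⟨φ, h1, h2⟩ := exists_form hd
    have hg := h' φ h1
    intro ψ hψ
    have h3 : (tv v' φ : SpecialLinearGroup n ℝ).1 *ᵥ v = v + v' := by
      rw [tv_apply h1, h2, one_smul]
    have h4 : (ψ ᵥ* (tv v' φ : SpecialLinearGroup n ℝ).1) ⬝ᵥ v = 0 := by
      rw [← dotProduct_mulVec, h3, hψ]
    have h5 := conj_tv (tv v' φ : SpecialLinearGroup n ℝ) v _ h4
    rw [h3, vecMul_vecMul, mul_inv_coe, vecMul_one] at h5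
    rw [← h5]
    exact H.mul_mem (H.mul_mem hg (h _ h4)) (H.inv_mem hg)
  · push Not at hd
    obtain ⟨c, rfl⟩ := hd
    have h1 : c • v' + v' = (c + 1) • v' := by rw [add_smul, one_smul]
    rw [h1]
    exact h'.smul _

theorem Axi.add {H : Subgroup (SpecialLinearGroup n ℝ)} {φ φ' : n → ℝ} (h : Axi H φ)
    (h' : Axi H φ') : Axi H (φ + φ') := by
  by_cases hd : ∀ c : ℝ, φ ≠ c • φ'
  · obtain ⟨w, h1, h2⟩ := exists_form hd
    have h1 : φ' ⬝ᵥ w = 0 := by rw [dotProduct_comm, h1]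
    have h2 : φ ⬝ᵥ w = 1 := by rw [dotProduct_comm, h2]
    have hg := h' w h1
    intro v hv
    -- `g = tv w φ'`, `φ ∘ g = φ + φ'`
    have h3 : φ ᵥ* (tv w φ' : SpecialLinearGroup n ℝ).1 = φ + φ' := by
      rw [tv_apply' h1, h2, one_smul]
    have h4 : φ ⬝ᵥ ((tv w φ' : SpecialLinearGroup n ℝ).1 *ᵥ v) = 0 := by
      rw [dotProduct_mulVec, h3, hv]
    have h5 := conj_tv (tv w φ' : SpecialLinearGroup n ℝ)⁻¹ _ φ h4
    rw [mulVec_mulVec, inv_mul_coe, one_mulVec, inv_inv, h3] at h5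
    rw [← h5]
    exact H.mul_mem (H.mul_mem (H.inv_mem hg) (h _ h4)) hg
  · push Not at hd
    obtain ⟨c, rfl⟩ := hd
    have h1 : c • φ' + φ' = (c + 1) • φ' := by rw [add_smul, one_smul]
    rw [h1]
    exact h'.smul _

/-- all axes through two independent vectors -/
theorem axi_all {H : Subgroup (SpecialLinearGroup n ℝ)} {v v' : n → ℝ} (hd : ∀ c : ℝ, v' ≠ c • v)
    (h : ∀ φ, φ ⬝ᵥ v = 0 → Axi H φ) (h' : ∀ φ, φ ⬝ᵥ v' = 0 → Axi H φ) (φ : n → ℝ) : Axi H φ := by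
  obtain ⟨ψ, h1, h2⟩ := exists_form hd
  have h3 : φ = (φ ⬝ᵥ v') • ψ + (φ - (φ ⬝ᵥ v') • ψ) := by
    ext i
    simp
  rw [h3]
  refine (h _ ?_).add (h' _ ?_)
  · rw [smul_dotProduct, h1, smul_zero]
  · rw [sub_dotProduct, smul_dotProduct, h2, smul_eq_mul, mul_one, sub_self]

theorem cen_all {H : Subgroup (SpecialLinearGroup n ℝ)} {φ φ' : n → ℝ} (hd : ∀ c : ℝ, φ' ≠ c • φ)
    (h : ∀ v, φ ⬝ᵥ v = 0 → Cen H v) (h' : ∀ v, φ' ⬝ᵥ v = 0 → Cen H v) (v : n → ℝ) : Cen H v := by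
  obtain ⟨w, h1, h2⟩ := exists_form hd
  have h1 : φ ⬝ᵥ w = 0 := by rw [dotProduct_comm, h1]
  have h2 : φ' ⬝ᵥ w = 1 := by rw [dotProduct_comm, h2]
  have h3 : v = (φ' ⬝ᵥ v) • w + (v - (φ' ⬝ᵥ v) • w) := by
    ext i
    simp
  rw [h3]
  refine (h _ ?_).add (h' _ ?_)
  · rw [dotProduct_smul, h1, smul_zero]
  · rw [dotProduct_sub, dotProduct_smul, h2, smul_eq_mul, mul_one, sub_self]

theorem top_of_axi [Nonempty n] {H : Subgroup (SpecialLinearGroup n ℝ)} (h : ∀ φ, Axi H φ) : H = ⊤ :=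
  eq_top_of_tv fun w φ hw => h φ w hw

theorem top_of_cen [Nonempty n] {H : Subgroup (SpecialLinearGroup n ℝ)} (h : ∀ v, Cen H v) : H = ⊤ :=
  eq_top_of_tv fun w φ hw => h w φ hw

end

end Pool.Agent.V7H36.HS
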