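import Mathlib
import Pool.Agent.V7H36.HS.Sub

/-!
# The stabilizers of lines are cocompact, the stabilizers of vectors are connected
-/

set_option autoImplicit false

open Matrix

namespace Pool.Agent.V7H36.HS

section

variable {m : ℕ}

/-- the first basis vector -/
abbrev e0 (m : ℕ) : Fin (m + 1) → ℝ := Pi.single 0 1

theorem e0_dot (v : Fin (m + 1) → ℝ) : e0 m ⬝ᵥ v = v 0 := by simp

theorem dot_e0 (v : Fin (m + 1) → ℝ) : v ⬝ᵥ e0 m = v 0 := by simp

/-- the matrices with entries bounded by `R` -/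
def box (m : ℕ) (R : ℝ) : Set (SL m) := {g | ∀ i j, |g.1 i j| ≤ R}

theorem isCompact_box (R : ℝ) : IsCompact (box m R) := by
  have h1 : IsCompact (Set.pi Set.univ fun _ : Fin (m + 1) => Set.pi Set.univ fun _ : Fin (m + 1) =>
      Set.Icc (-R) R) :=
    isCompact_univ_pi fun _ => isCompact_univ_pi fun _ => isCompact_Icc
  have h2 := (SpecialLinearGroup.isClosedEmbedding_val (n := Fin (m + 1)) (R := ℝ)).isCompact_preimage h1
  have h3 : box m R = (fun g : SL m => g.1) ⁻¹' (Set.pi Set.univ fun _ : Fin (m + 1) =>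
      Set.pi Set.univ fun _ : Fin (m + 1) => Set.Icc (-R) R) := by
    ext g
    constructor
    · intro h i _ j _
      exact abs_le.1 (h i j)
    · intro h i j
      exact abs_le.2 (h i (Set.mem_univ i) j (Set.mem_univ j))
  rw [h3]
  exact h2

theorem box_mul {R R' : ℝ} (hR : 0 ≤ R) {g h : SL m} (hg : g ∈ box m R) (hh : h ∈ box m R') :
    g * h ∈ box m ((m + 1) * (R * R')) := by
  intro i j
  have h1 : (g * h).1 i j = ∑ k, g.1 i k * h.1 k j := rfl
  rw [h1]
  refine (Finset.abs_sum_le_sum_abs _ _).trans ?_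
  have h2 : ∀ k ∈ Finset.univ, |g.1 i k * h.1 k j| ≤ R * R' := by
    intro k _
    rw [abs_mul]
    exact mul_le_mul (hg i k) (hh k j) (abs_nonneg _) hR
  refine (Finset.sum_le_sum h2).trans ?_
  rw [Finset.sum_const, Finset.card_univ, Fintype.card_fin, nsmul_eq_mul]
  push_cast
  exact le_refl _

theorem tv_mem_box {w φ : Fin (m + 1) → ℝ} {a b : ℝ} (hb : 0 ≤ b) (h : φ ⬝ᵥ w = 0)
    (hw : ∀ i, |w i| ≤ b) (hφ : ∀ i, |φ i| ≤ a) : (tv w φ : SL m) ∈ box m (1 + b * a) := by
  intro i j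
  rw [tv_coe h]
  change |(1 : Matrix (Fin (m + 1)) (Fin (m + 1)) ℝ) i j + vecMulVec w φ i j| ≤ _
  refine (abs_add_le _ _).trans (add_le_add ?_ ?_)
  · rw [Matrix.one_apply]
    split_ifs <;> simp
  · rw [vecMulVec_apply, abs_mul]
    exact mul_le_mul (hw i) (hφ j) (abs_nonneg _) hb

theorem exists_col (m : ℕ) : ∃ R : ℝ, ∀ u : Fin (m + 1) → ℝ, u ≠ 0 → ∃ g ∈ box m R, ∃ a : ℝ, a ≠ 0 ∧
    g.1 *ᵥ e0 m = a • u := by
  refine ⟨max ((m + 1) * ((1 + 3 * 1) * (1 + 1 * 1))) (1 + 3 * 1), fun u hu => ?_⟩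
  obtain ⟨k, hk⟩ := Finite.exists_max fun i => |u i|
  have hk0 : u k ≠ 0 := by
    intro h
    apply hu
    ext i
    have := hk i
    rw [h, abs_zero] at this
    exact abs_nonpos_iff.1 this
  let w : Fin (m + 1) → ℝ := (u k)⁻¹ • u
  have hw : ∀ i, |w i| ≤ 1 := by
    intro i
    change |(u k)⁻¹ * u i| ≤ 1
    rw [abs_mul, abs_inv, inv_mul_le_one₀ (abs_pos.2 hk0)]
    exact hk i
  have hwk : w k = 1 := inv_mul_cancel₀ hk0
  have hs : ∀ j i : Fin (m + 1), |(Pi.single j (1 : ℝ) : Fin (m + 1) → ℝ) i| ≤ 1 := by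
    intro j i
    rw [Pi.single_apply]
    split_ifs <;> simp
  by_cases h0 : k = 0
  · subst h0
    have h1 : e0 m ⬝ᵥ (w - e0 m) = 0 := by
      rw [e0_dot]
      simp [hwk]
    refine ⟨tv (w - e0 m) (e0 m), ?_, (u 0)⁻¹, inv_ne_zero hk0, ?_⟩
    · intro i j
      refine (tv_mem_box (b := 3) (a := 1) (by norm_num) h1 (fun i => ?_) (hs 0) i j).trans
        (le_max_right _ _)
      have h2 : |(w - e0 m) i| ≤ |w i| + |e0 m i| := abs_sub _ _
      have h3 := hw i
      have h4 : |e0 m i| ≤ 1 := hs 0 i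
      linarith
    · rw [tv_apply h1, dot_e0]
      simp [w]
  · have hk1 : e0 m ⬝ᵥ (Pi.single k (1 : ℝ) : Fin (m + 1) → ℝ) = 0 := by
      rw [e0_dot, Pi.single_eq_of_ne (Ne.symm h0)]
    have h1 : (Pi.single k (1 : ℝ) : Fin (m + 1) → ℝ) ⬝ᵥ (w - e0 m - Pi.single k 1) = 0 := by
      rw [single_dotProduct]
      simp [hwk, h0]
    refine ⟨tv (w - e0 m - Pi.single k 1) (Pi.single k 1) * tv (Pi.single k 1) (e0 m), ?_,
      (u k)⁻¹, inv_ne_zero hk0, ?_⟩
    · intro i j
      refine (box_mul (R := 1 + 3 * 1) (R' := 1 + 1 * 1) (by norm_num)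
        (tv_mem_box (by norm_num) h1 (fun i => ?_) (hs k))
        (tv_mem_box (by norm_num) hk1 (hs k) (hs 0)) i j).trans (le_max_left _ _)
      have h2 : |(w - e0 m - Pi.single k (1 : ℝ) : Fin (m + 1) → ℝ) i| ≤ |w i| + |e0 m i| +
          |(Pi.single k (1 : ℝ) : Fin (m + 1) → ℝ) i| :=
        (abs_sub _ _).trans (add_le_add (abs_sub _ _) le_rfl)
      have h3 := hw i
      have h4 : |e0 m i| ≤ 1 := hs 0 i
      have h5 := hs k i
      linarith
    · change ((tv (w - e0 m - Pi.single k 1) (Pi.single k 1)).1 * (tv (Pi.single k 1) (e0 m)).1) *ᵥ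
        e0 m = _
      rw [← mulVec_mulVec, tv_apply hk1, dot_e0, tv_apply h1]
      have h6 : (Pi.single k (1 : ℝ) : Fin (m + 1) → ℝ) ⬝ᵥ (e0 m + e0 m 0 • Pi.single k 1) = 1 := by
        rw [single_dotProduct]
        simp [h0]
      rw [h6]
      simp [w]

theorem compact_quotient {G : Type} [Group G] [TopologicalSpace G] (Q : Subgroup G) (C : Set G)
    (hC : IsCompact C) (h : ∀ g : G, ∃ c ∈ C, c⁻¹ * g ∈ Q) : CompactSpace (G ⧸ Q) := by
  refine ⟨?_⟩
  have h1 : (QuotientGroup.mk : G → G ⧸ Q) '' C = Set.univ := by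
    ext c
    simp only [Set.mem_image, Set.mem_univ, iff_true]
    obtain ⟨g, rfl⟩ := QuotientGroup.mk_surjective c
    obtain ⟨c, hc, hcg⟩ := h g
    exact ⟨c, hc, QuotientGroup.eq.2 hcg⟩
  rw [← h1]
  exact hC.image continuous_quot_mk

theorem mulVec_ne_zero (g : SL m) {v : Fin (m + 1) → ℝ} (hv : v ≠ 0) : g.1 *ᵥ v ≠ 0 := by
  intro h
  apply hv
  have h1 : (g⁻¹).1 *ᵥ (g.1 *ᵥ v) = v := by rw [mulVec_mulVec, inv_mul_coe, one_mulVec]
  rw [h, mulVec_zero] at h1
  exact h1.symm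

theorem vecMul_ne_zero (g : SL m) {v : Fin (m + 1) → ℝ} (hv : v ≠ 0) : v ᵥ* g.1 ≠ 0 := by
  intro h
  apply hv
  have h1 : (v ᵥ* g.1) ᵥ* (g⁻¹).1 = v := by rw [vecMul_vecMul, mul_inv_coe, vecMul_one]
  rw [h, zero_vecMul] at h1
  exact h1.symm

theorem e0_ne : e0 m ≠ 0 := by
  intro h
  have := congrFun h 0
  simp at this

instance compact_line : CompactSpace (SL m ⧸ lineStab (e0 m)) := by
  obtain ⟨R, hR⟩ := exists_col m
  refine compact_quotient _ _ (isCompact_box R) fun g => ?_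
  obtain ⟨c, hc, a, ha, h1⟩ := hR _ (mulVec_ne_zero g e0_ne)
  refine ⟨c, hc, a⁻¹, inv_ne_zero ha, ?_⟩
  change ((c⁻¹).1 * g.1) *ᵥ e0 m = _
  have h2 : g.1 *ᵥ e0 m = a⁻¹ • (c.1 *ᵥ e0 m) := by rw [h1, smul_smul, inv_mul_cancel₀ ha, one_smul]
  rw [← mulVec_mulVec, h2, mulVec_smul, mulVec_mulVec, inv_mul_coe, one_mulVec]

theorem continuous_transpose : Continuous fun g : SL m => g.transpose := by
  refine (SpecialLinearGroup.isClosedEmbedding_val (n := Fin (m + 1))
    (R := ℝ)).isInducing.continuous_iff.2 ?_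
  exact (SpecialLinearGroup.isClosedEmbedding_val (n := Fin (m + 1))
    (R := ℝ)).continuous.matrix_transpose

instance compact_plane : CompactSpace (SL m ⧸ planeStab (e0 m)) := by
  obtain ⟨R, hR⟩ := exists_col m
  have hcont : Continuous fun g : SL m => (g.transpose)⁻¹ := continuous_transpose.inv
  refine compact_quotient _ _ ((isCompact_box R).image hcont) fun g => ?_
  obtain ⟨c, hc, a, ha, h1⟩ := hR _ (vecMul_ne_zero g⁻¹ e0_ne)
  refine ⟨_, ⟨c, hc, rfl⟩, a, ha, ?_⟩
  change e0 m ᵥ* (((c.transpose)⁻¹)⁻¹ * g).1 = _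
  rw [inv_inv]
  change e0 m ᵥ* ((c.1)ᵀ * g.1) = _
  rw [← vecMul_vecMul, vecMul_transpose, h1, smul_vecMul, vecMul_vecMul, inv_mul_coe, vecMul_one]

/-! ### Connected components -/

/-- the matrix with blocks `1, r, 0, h` -/
def bm (h : Matrix (Fin m) (Fin m) ℝ) (r : Fin m → ℝ) : Matrix (Fin (m + 1)) (Fin (m + 1)) ℝ :=
  Matrix.of (Fin.cons (Fin.cons 1 r) fun i => Fin.cons 0 (h i))

theorem bm_00 (h : Matrix (Fin m) (Fin m) ℝ) (r : Fin m → ℝ) : bm h r 0 0 = 1 := rfl

theorem bm_0s (h : Matrix (Fin m) (Fin m) ℝ) (r : Fin m → ℝ) (j : Fin m) : bm h r 0 j.succ = r j := rfl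

theorem bm_s0 (h : Matrix (Fin m) (Fin m) ℝ) (r : Fin m → ℝ) (i : Fin m) : bm h r i.succ 0 = 0 := rfl

theorem bm_ss (h : Matrix (Fin m) (Fin m) ℝ) (r : Fin m → ℝ) (i j : Fin m) :
    bm h r i.succ j.succ = h i j := rfl

theorem det_of_col (M : Matrix (Fin (m + 1)) (Fin (m + 1)) ℝ) (h0 : M 0 0 = 1)
    (h1 : ∀ i : Fin m, M i.succ 0 = 0) : M.det = (M.submatrix Fin.succ Fin.succ).det := by
  rw [det_succ_column_zero, Fin.sum_univ_succ]
  simp only [h0, h1, mul_zero, zero_mul, Finset.sum_const_zero, add_zero, Fin.val_zero, pow_zero,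
    mul_one, one_mul]
  rfl

theorem det_bm (h : Matrix (Fin m) (Fin m) ℝ) (r : Fin m → ℝ) : (bm h r).det = h.det := by
  rw [det_of_col _ (bm_00 h r) (bm_s0 h r)]
  rfl

theorem connected_vecStab (hm : 1 ≤ m) : ConnectedSpace (vecStab (e0 m)) := by
  haveI : Nonempty (Fin m) := ⟨⟨0, hm⟩⟩
  let F : SpecialLinearGroup (Fin m) ℝ × (Fin m → ℝ) → vecStab (e0 m) := fun p =>
    ⟨⟨bm p.1.1 p.2, by rw [det_bm]; exact p.1.2⟩, by
      change bm p.1.1 p.2 *ᵥ e0 m = e0 m
      rw [mulVec_single_one]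
      ext i
      refine Fin.cases ?_ (fun i => ?_) i
      · simp [bm_00]
      · simp [bm_s0]⟩
  have hF : Continuous F := by
    refine Continuous.subtype_mk ?_ _
    refine (SpecialLinearGroup.isClosedEmbedding_val (n := Fin (m + 1))
      (R := ℝ)).isInducing.continuous_iff.2 ?_
    refine continuous_matrix fun i j => ?_
    have h1 : Continuous fun p : SpecialLinearGroup (Fin m) ℝ × (Fin m → ℝ) => p.1.1 :=
      (SpecialLinearGroup.isClosedEmbedding_val (n := Fin m) (R := ℝ)).continuous.comp continuous_fst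
    change Continuous fun p : SpecialLinearGroup (Fin m) ℝ × (Fin m → ℝ) => bm p.1.1 p.2 i j
    refine Fin.cases ?_ (fun i => ?_) i
    · refine Fin.cases ?_ (fun j => ?_) j
      · simp only [bm_00]
        exact continuous_const
      · simp only [bm_0s]
        exact (continuous_apply j).comp continuous_snd
    · refine Fin.cases ?_ (fun j => ?_) j
      · simp only [bm_s0]
        exact continuous_const
      · simp only [bm_ss]
        exact h1.matrix_elem i j
  have hs : Function.Surjective F := by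
    rintro ⟨g, hg⟩
    have hg : g.1 *ᵥ e0 m = e0 m := hg
    rw [mulVec_single_one] at hg
    have h0 : g.1 0 0 = 1 := by
      have := congrFun hg 0
      simpa using this
    have h1 : ∀ i : Fin m, g.1 i.succ 0 = 0 := by
      intro i
      have := congrFun hg i.succ
      simpa using this
    have h2 : (g.1.submatrix Fin.succ Fin.succ).det = 1 := by
      rw [← det_of_col g.1 h0 h1]
      exact g.2
    refine ⟨(⟨g.1.submatrix Fin.succ Fin.succ, h2⟩, fun j => g.1 0 j.succ), ?_⟩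
    apply Subtype.ext
    apply Subtype.ext
    change bm (g.1.submatrix Fin.succ Fin.succ) (fun j => g.1 0 j.succ) = g.1
    ext i j
    refine Fin.cases ?_ (fun i => ?_) i
    · refine Fin.cases ?_ (fun j => ?_) j
      · rw [bm_00, h0]
      · rw [bm_0s]
    · refine Fin.cases ?_ (fun j => ?_) j
      · rw [bm_s0, h1]
      · rw [bm_ss]
        rfl
  exact hs.connectedSpace hF

theorem connected_formStab (hm : 1 ≤ m) : ConnectedSpace (formStab (e0 m)) := by
  haveI := connected_vecStab hm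
  let F : vecStab (e0 m) → formStab (e0 m) := fun g => ⟨g.1.transpose, by
    change e0 m ᵥ* (g.1.1)ᵀ = e0 m
    rw [vecMul_transpose]
    exact g.2⟩
  have hF : Continuous F := (continuous_transpose.comp continuous_subtype_val).subtype_mk _
  have hs : Function.Surjective F := by
    rintro ⟨g, hg⟩
    have hg : e0 m ᵥ* g.1 = e0 m := hg
    refine ⟨⟨g.transpose, ?_⟩, ?_⟩
    · change (g.1)ᵀ *ᵥ e0 m = e0 m
      rw [mulVec_transpose, hg]
    · apply Subtype.ext
      apply Subtype.ext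
      change ((g.1)ᵀ)ᵀ = g.1
      exact transpose_transpose _
  exact hs.connectedSpace hF

theorem finite_components {G : Type} [Group G] [TopologicalSpace G] [IsTopologicalGroup G]
    (P L : Subgroup G) (hL : ConnectedSpace L) (hLP : L ≤ P) (s : G) (hs : s ∈ P)
    (h : ∀ g ∈ P, g ∈ L ∨ s⁻¹ * g ∈ L) : Finite (ConnectedComponents P) := by
  have h1 : ∀ g ∈ L, ∀ hg : g ∈ P, (ConnectedComponents.mk (⟨g, hg⟩ : P)) =
      ConnectedComponents.mk (1 : P) := by
    intro g hgL hg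
    have h2 : IsPreconnected (Set.range (Subgroup.inclusion hLP)) :=
      isPreconnected_range (continuous_id.subtype_map hLP)
    rw [ConnectedComponents.coe_eq_coe']
    exact h2.subset_connectedComponent ⟨1, rfl⟩ ⟨⟨g, hgL⟩, rfl⟩
  have h2 : ∀ g ∈ L, ∀ hg : s * g ∈ P, (ConnectedComponents.mk (⟨s * g, hg⟩ : P)) =
      ConnectedComponents.mk (⟨s, hs⟩ : P) := by
    intro g hgL hg
    have h3 : IsPreconnected (Set.range fun l : L => (⟨s, hs⟩ : P) * Subgroup.inclusion hLP l) :=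
      isPreconnected_range (continuous_const.mul (continuous_id.subtype_map hLP))
    rw [ConnectedComponents.coe_eq_coe']
    exact h3.subset_connectedComponent ⟨1, by simp⟩ ⟨⟨g, hgL⟩, rfl⟩
  have h3 : (Set.univ : Set (ConnectedComponents P)) ⊆
      {ConnectedComponents.mk (1 : P), ConnectedComponents.mk (⟨s, hs⟩ : P)} := by
    rintro c -
    obtain ⟨⟨g, hg⟩, rfl⟩ := ConnectedComponents.surjective_coe c
    rcases h g hg with h4 | h4
    · exact Or.inl (h1 g h4 hg)
    · refine Or.inr ?_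
      have h5 : s * (s⁻¹ * g) = g := mul_inv_cancel_left s g
      have h6 := h2 _ h4 (by rw [h5]; exact hg)
      have h7 : (⟨s * (s⁻¹ * g), by rw [h5]; exact hg⟩ : P) = ⟨g, hg⟩ := Subtype.ext h5
      rw [h7] at h6
      exact h6
  exact Set.finite_univ_iff.1 ((Set.toFinite _).subset h3)

end

end Pool.Agent.V7H36.HS
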