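import Mathlib
import Pool.Agent.V7H36.HS.Defs

/-!
# The assembly map for groups acting through the multiplicative group of the real numbers
-/

set_option autoImplicit false
set_option linter.unusedSectionVars false

open MulAction

namespace Pool.Agent.V7H36.HS

/-- a countable basis as a sequence -/
theorem exists_seq_basis (X : Type) [TopologicalSpace X] [SecondCountableTopology X] :
    ∃ b : ℕ → Set X, (∀ k, IsOpen (b k)) ∧ ∀ (x : X) (O : Set X), IsOpen O → x ∈ O →
      ∃ k, x ∈ b k ∧ b k ⊆ O := by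
  have h1 : (TopologicalSpace.countableBasis X ∪ {∅}).Countable :=
    (TopologicalSpace.countable_countableBasis X).union (Set.countable_singleton _)
  obtain ⟨b, hb⟩ := h1.exists_eq_range ⟨∅, Or.inr rfl⟩
  refine ⟨b, fun k => ?_, fun x O hO hx => ?_⟩
  · have h2 : b k ∈ TopologicalSpace.countableBasis X ∪ {∅} := by
      rw [hb]
      exact ⟨k, rfl⟩
    rcases h2 with h2 | h2
    · exact TopologicalSpace.isOpen_of_mem_countableBasis h2
    · rw [Set.mem_singleton_iff.1 h2]
      exact isOpen_empty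
  · obtain ⟨u, h2, h3, h4⟩ :=
      (TopologicalSpace.isBasis_countableBasis X).exists_subset_of_mem_open hx hO
    have h5 : u ∈ Set.range b := by
      rw [← hb]
      exact Or.inl h2
    obtain ⟨k, rfl⟩ := h5
    exact ⟨k, h3, h4⟩

section

variable {G X : Type} [Group G] [MulAction G X] [TopologicalSpace G] [IsTopologicalGroup G]
  [TopologicalSpace X] [T2Space X] [ContinuousSMul G X] [SecondCountableTopology X]

/-- the free part -/
theorem free_piece {BC : Subgroup G → Set X → Prop} (h : IsAssembly BC) (M L : Subgroup G)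
    (hM : IsClosed (M : Set G)) (hL : IsClosed (L : Set G)) (hLM : L ≤ M)
    (hfL : Finite (ConnectedComponents L)) (s : G) (hs : s ∈ M) (hsL : s ∉ L)
    (hind : ∀ m ∈ M, m ∈ L ∨ s⁻¹ * m ∈ L) (hnorm : ∀ l ∈ L, s * l * s⁻¹ ∈ L)
    (hnorm' : ∀ l ∈ L, s⁻¹ * l * s ∈ L) (hss : s * s ∈ L) (W : Set X) (hW : Invariant M W)
    (hW' : IsLocallyClosed W) (htriv : ∀ l ∈ L, ∀ x ∈ W, l • x = x) (V : Set X) (hV : IsOpen V)
    (hV' : ∀ x ∈ V, s • x ∉ V) (hWV : ∀ x ∈ W, x ∈ V ∨ s • x ∈ V) : BC M W := by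
  classical
  have hact : ∀ m ∈ M, ∀ x ∈ W, (m ∈ L ∧ m • x = x) ∨ (s⁻¹ * m ∈ L ∧ m • x = s • x) := by
    intro m hm x hx
    rcases hind m hm with h1 | h1
    · exact Or.inl ⟨h1, htriv m h1 x hx⟩
    · refine Or.inr ⟨h1, ?_⟩
      have h2 := htriv _ h1 x hx
      have h3 : m • x = s • (s⁻¹ * m) • x := by
        rw [smul_smul]
        congr 1
        group
      rw [h3, h2]
  have hssx : ∀ x ∈ W, s • s • x = x := by
    intro x hx
    rw [smul_smul]
    exact htriv _ hss x hx
  let f : X → G ⧸ L := fun x => if x ∈ V then ((1 : G) : G ⧸ L) else (s : G ⧸ L)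
  have hf1 : ∀ x, x ∈ V → f x = ((1 : G) : G ⧸ L) := fun x hx => if_pos hx
  have hf2 : ∀ x, x ∉ V → f x = (s : G ⧸ L) := fun x hx => if_neg hx
  have hne : ((1 : G) : G ⧸ L) ≠ (s : G ⧸ L) := by
    intro h1
    have := QuotientGroup.eq.1 h1
    apply hsL
    simpa using this
  refine h.induced M L hM hL hLM W hW hW' f ?_ ?_ ?_ ?_
  · intro x hx
    by_cases hxV : x ∈ V
    · have h1 : f =ᶠ[nhdsWithin x W] fun _ => ((1 : G) : G ⧸ L) := by
        filter_upwards [mem_nhdsWithin_of_mem_nhds (hV.mem_nhds hxV)] with y hy using hf1 y hy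
      exact (continuousWithinAt_const (b := ((1 : G) : G ⧸ L))).congr_of_eventuallyEq h1 (hf1 x hxV)
    · have hsx : s • x ∈ V := (hWV x hx).resolve_left hxV
      have h1 : f =ᶠ[nhdsWithin x W] fun _ => (s : G ⧸ L) := by
        have h2 : {y : X | s • y ∈ V} ∈ nhds x :=
          (hV.preimage (continuous_const_smul s)).mem_nhds hsx
        filter_upwards [mem_nhdsWithin_of_mem_nhds h2] with y hy
        exact hf2 y fun hy' => hV' y hy' hy
      exact (continuousWithinAt_const (b := (s : G ⧸ L))).congr_of_eventuallyEq h1 (hf2 x hxV)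
  · intro m hm x hx
    by_cases hxV : x ∈ V
    · rw [hf1 x hxV]
      rcases hact m hm x hx with ⟨h1, h2⟩ | ⟨h1, h2⟩
      · rw [h2, hf1 x hxV]
        change ((1 : G) : G ⧸ L) = ((m * 1 : G) : G ⧸ L)
        rw [QuotientGroup.eq]
        simpa using h1
      · rw [h2, hf2 _ (hV' x hxV)]
        change (s : G ⧸ L) = ((m * 1 : G) : G ⧸ L)
        rw [QuotientGroup.eq]
        simpa using h1
    · have hsx : s • x ∈ V := (hWV x hx).resolve_left hxV
      rw [hf2 x hxV]
      rcases hact m hm x hx with ⟨h1, h2⟩ | ⟨h1, h2⟩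
      · rw [h2, hf2 x hxV]
        change (s : G ⧸ L) = ((m * s : G) : G ⧸ L)
        rw [QuotientGroup.eq]
        have := hnorm' m h1
        rwa [mul_assoc] at this
      · rw [h2, hf1 _ hsx]
        change ((1 : G) : G ⧸ L) = ((m * s : G) : G ⧸ L)
        rw [QuotientGroup.eq]
        have h3 : (1 : G)⁻¹ * (m * s) = s * (s⁻¹ * m) * s⁻¹ * (s * s) := by group
        rw [h3]
        exact L.mul_mem (hnorm _ h1) hss
  · intro x hx
    by_cases hxV : x ∈ V
    · exact ⟨1, M.one_mem, hf1 x hxV⟩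
    · exact ⟨s, hs, hf2 x hxV⟩
  · have h1 : W ∩ f ⁻¹' {((1 : G) : G ⧸ L)} = W ∩ V := by
      ext x
      simp only [Set.mem_inter_iff, Set.mem_preimage, Set.mem_singleton_iff, and_congr_right_iff]
      intro _
      constructor
      · intro h2
        by_contra h3
        rw [hf2 x h3] at h2
        exact hne h2.symm
      · exact hf1 x
    rw [h1]
    exact h.trivial L _ hL hfL (fun l hl x hx => htriv l hl x hx.1) (hW'.inter hV.isLocallyClosed)

/-- groups acting through a group with two elements -/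
theorem two_case {BC : Subgroup G → Set X → Prop} (h : IsAssembly BC) (M L : Subgroup G)
    (hM : IsClosed (M : Set G)) (hL : IsClosed (L : Set G)) (hLM : L ≤ M)
    (hfL : Finite (ConnectedComponents L)) (hfM : Finite (ConnectedComponents M)) (s : G)
    (hs : s ∈ M) (hsL : s ∉ L) (hind : ∀ m ∈ M, m ∈ L ∨ s⁻¹ * m ∈ L)
    (hnorm : ∀ l ∈ L, s * l * s⁻¹ ∈ L) (hnorm' : ∀ l ∈ L, s⁻¹ * l * s ∈ L) (hss : s * s ∈ L)
    (S : Set X) (hS : Invariant M S) (hS' : IsLocallyClosed S)
    (htriv : ∀ l ∈ L, ∀ x ∈ S, l • x = x) : BC M S := by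
  classical
  have hact : ∀ m ∈ M, ∀ x ∈ S, m • x = x ∨ m • x = s • x := by
    intro m hm x hx
    rcases hind m hm with h1 | h1
    · exact Or.inl (htriv m h1 x hx)
    · refine Or.inr ?_
      have h2 := htriv _ h1 x hx
      have h3 : m • x = s • (s⁻¹ * m) • x := by
        rw [smul_smul]
        congr 1
        group
      rw [h3, h2]
  have hssx : ∀ x ∈ S, s • s • x = x := by
    intro x hx
    rw [smul_smul]
    exact htriv _ hss x hx
  have hFc : IsClosed {x : X | s • x = x} := isClosed_eq (continuous_const_smul s) continuous_id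
  -- the fixed part
  have hF : BC M (S ∩ {x : X | s • x = x}) := by
    refine h.trivial M _ hM hfM ?_ (hS'.inter hFc.isLocallyClosed)
    rintro m hm x ⟨hx, hx'⟩
    rcases hact m hm x hx with h1 | h1
    · exact h1
    · rw [h1]
      exact hx'
  -- the free part
  have hAinv : ∀ B : Set X, Invariant M (S ∩ {x : X | s • x = x}ᶜ ∩ {x | x ∈ B ∨ s • x ∈ B}) := by
    rintro B m hm x ⟨⟨hx, hx'⟩, hx''⟩
    have hx' : s • x ≠ x := hx'
    have hsS : s • x ∈ S := hS s hs x hx
    rcases hact m hm x hx with h1 | h1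
    · rw [h1]
      exact ⟨⟨hx, hx'⟩, hx''⟩
    · rw [h1]
      refine ⟨⟨hsS, ?_⟩, ?_⟩
      · intro h2
        have h2 : s • s • x = s • x := h2
        rw [hssx x hx] at h2
        exact hx' h2.symm
      · have h3 := hssx x hx
        change s • x ∈ B ∨ s • s • x ∈ B
        rw [h3]
        exact hx''.symm
  have hA' : IsLocallyClosed (S ∩ {x : X | s • x = x}ᶜ) := hS'.inter hFc.isOpen_compl.isLocallyClosed
  have hA : Invariant M (S ∩ {x : X | s • x = x}ᶜ) := by
    have h1 := hAinv Set.univ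
    simpa using h1
  have hfree : BC M (S ∩ {x : X | s • x = x}ᶜ) := by
    obtain ⟨b, hb1, hb2⟩ := exists_seq_basis X
    let V : ℕ → Set X := fun k => if ∀ x ∈ b k, s • x ∉ b k then b k else ∅
    have hVo : ∀ k, IsOpen (V k) := by
      intro k
      by_cases hk : ∀ x ∈ b k, s • x ∉ b k
      · have : V k = b k := if_pos hk
        rw [this]
        exact hb1 k
      · have : V k = ∅ := if_neg hk
        rw [this]
        exact isOpen_empty
    have hVs : ∀ k, ∀ x ∈ V k, s • x ∉ V k := by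
      intro k x hx
      by_cases hk : ∀ x ∈ b k, s • x ∉ b k
      · have h1 : V k = b k := if_pos hk
        rw [h1] at hx ⊢
        exact hk x hx
      · have h1 : V k = ∅ := if_neg hk
        rw [h1] at hx
        exact hx.elim
    have hcov : ∀ x : X, s • x ≠ x → ∃ k, x ∈ V k := by
      intro x hx
      obtain ⟨O₁, O₂, h1, h2, h3, h4, h5⟩ := t2_separation hx.symm
      have h6 : IsOpen (O₁ ∩ (fun y : X => s • y) ⁻¹' O₂) :=
        h1.inter (h2.preimage (continuous_const_smul s))
      obtain ⟨k, h7, h8⟩ := hb2 x _ h6 ⟨h3, h4⟩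
      have h9 : ∀ y ∈ b k, s • y ∉ b k := by
        intro y hy hy'
        exact Set.disjoint_left.1 h5 (h8 hy').1 (h8 hy).2
      refine ⟨k, ?_⟩
      have h10 : V k = b k := if_pos h9
      rw [h10]
      exact h7
    have hUo : ∀ k, IsOpen {x : X | ∃ j < k, x ∈ V j ∨ s • x ∈ V j} := by
      intro k
      have h1 : {x : X | ∃ j < k, x ∈ V j ∨ s • x ∈ V j} =
          ⋃ j ∈ Finset.range k, (V j ∪ (fun y : X => s • y) ⁻¹' V j) := by
        ext x
        simp
      rw [h1]
      exact isOpen_biUnion fun j _ => (hVo j).union ((hVo j).preimage (continuous_const_smul s))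
    let U : ℕ → Set X := fun k => S ∩ {x : X | s • x = x}ᶜ ∩ {x : X | ∃ j < k, x ∈ V j ∨ s • x ∈ V j}
    have hUinv : ∀ k, Invariant M (U k) := by
      rintro k m hm x ⟨hx, j, hj, hx'⟩
      obtain ⟨h1, h2⟩ := hAinv (V j) m hm x ⟨hx, hx'⟩
      exact ⟨h1, j, hj, h2⟩
    have hUlc : ∀ k, IsLocallyClosed (U k) := fun k => hA'.inter (hUo k).isLocallyClosed
    have hUU : (⋃ k, U k) = S ∩ {x : X | s • x = x}ᶜ := by
      ext x
      simp only [Set.mem_iUnion]
      constructor
      · rintro ⟨k, h1, _⟩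
        exact h1
      · intro hx
        obtain ⟨k, hk⟩ := hcov x hx.2
        exact ⟨k + 1, hx, k, Nat.lt_succ_self k, Or.inl hk⟩
    have hstep : ∀ k, BC M (U k) := by
      intro k
      induction k with
      | zero =>
        have h1 : U 0 = ∅ := by
          ext x
          simp [U]
        rw [h1]
        exact h.empty M hM
      | succ k ih =>
        let W : Set X := (S ∩ {x : X | s • x = x}ᶜ ∩ {x | x ∈ V k ∨ s • x ∈ V k}) \ U k
        have hWinv : Invariant M W := by
          rintro m hm x ⟨hx, hx'⟩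
          refine ⟨hAinv _ m hm x hx, fun h1 => hx' ?_⟩
          have h2 := hUinv k m⁻¹ (M.inv_mem hm) _ h1
          rwa [inv_smul_smul] at h2
        have hWlc : IsLocallyClosed W := by
          have h1 : W = (S ∩ {x : X | s • x = x}ᶜ ∩ {x | x ∈ V k ∨ s • x ∈ V k}) ∩
              {x : X | ∃ j < k, x ∈ V j ∨ s • x ∈ V j}ᶜ := by
            ext x
            constructor
            · rintro ⟨h1, h2⟩
              exact ⟨h1, fun h3 => h2 ⟨h1.1, h3⟩⟩
            · rintro ⟨h1, h2⟩
              exact ⟨h1, fun h3 => h2 h3.2⟩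
          rw [h1]
          refine (hA'.inter ?_).inter (hUo k).isClosed_compl.isLocallyClosed
          exact ((hVo k).union ((hVo k).preimage (continuous_const_smul s))).isLocallyClosed
        have hWBC : BC M W := by
          refine free_piece h M L hM hL hLM hfL s hs hsL hind hnorm hnorm' hss W hWinv hWlc ?_ (V k)
            (hVo k) (hVs k) ?_
          · rintro l hl x ⟨⟨⟨hx, _⟩, _⟩, _⟩
            exact htriv l hl x hx
          · rintro x ⟨⟨_, hx⟩, _⟩
            exact hx
        have hUW : U k ∪ W = U (k + 1) := by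
          ext x
          constructor
          · rintro (⟨h1, j, h2, h3⟩ | ⟨⟨h1, h2⟩, _⟩)
            · exact ⟨h1, j, by omega, h3⟩
            · exact ⟨h1, k, Nat.lt_succ_self k, h2⟩
          · rintro ⟨h1, j, h2, h3⟩
            by_cases h4 : x ∈ U k
            · exact Or.inl h4
            · refine Or.inr ⟨⟨h1, ?_⟩, h4⟩
              rcases Nat.lt_succ_iff_lt_or_eq.1 h2 with h5 | h5
              · exact absurd ⟨h1, j, h5, h3⟩ h4
              · rw [h5] at h3
                exact h3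
        rw [← hUW]
        refine h.excision M _ _ hM (hUinv k) hWinv (hUlc k) hWlc ?_ ?_ ?_ ih hWBC
        · rw [hUW]
          exact hUlc (k + 1)
        · rw [Set.disjoint_left]
          rintro x hx ⟨_, hx'⟩
          exact hx' hx
        · refine ⟨_, hUo k, ?_⟩
          rw [hUW]
          ext x
          constructor
          · rintro ⟨h1, j, h2, h3⟩
            exact ⟨⟨h1, j, by omega, h3⟩, j, h2, h3⟩
          · rintro ⟨⟨h1, _⟩, h2⟩
            exact ⟨h1, h2⟩
    rw [← hUU]
    refine h.union M U hM hUinv ?_ ?_ ?_ hstep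
    · intro j k hjk x hx
      obtain ⟨h1, i, h2, h3⟩ := hx
      exact ⟨h1, i, by omega, h3⟩
    · rw [hUU]
      exact hA'
    · intro k
      rw [hUU]
      exact ⟨_, hUo k, rfl⟩
  have hun : S ∩ {x : X | s • x = x}ᶜ ∪ S ∩ {x : X | s • x = x} = S := by
    rw [← Set.inter_union_distrib_left, Set.compl_union_self, Set.inter_univ]
  rw [← hun]
  refine h.excision M _ _ hM hA ?_ hA' (hS'.inter hFc.isLocallyClosed) (by rw [hun]; exact hS') ?_ ?_
    hfree hF
  · rintro m hm x ⟨hx, hx'⟩
    have hx' : s • x = x := hx'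
    rcases hact m hm x hx with h1 | h1
    · rw [h1]
      exact ⟨hx, hx'⟩
    · rw [h1, hx']
      exact ⟨hx, hx'⟩
  · rw [Set.disjoint_left]
    rintro x ⟨_, h1⟩ ⟨_, h2⟩
    exact h1 h2
  · exact ⟨_, hFc.isOpen_compl, by rw [hun]⟩

/-- groups acting through a subgroup of the multiplicative group of the real numbers -/
theorem line_case {BC : Subgroup G → Set X → Prop} (h : IsAssembly BC) (Q L P : Subgroup G)
    (lam : G → ℝ) (hlam : Continuous lam) (h1 : lam 1 = 1)
    (hmul : ∀ a ∈ Q, ∀ b ∈ Q, lam (a * b) = lam a * lam b) (hQ : IsClosed (Q : Set G))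
    (hL : ∀ g, g ∈ L ↔ g ∈ Q ∧ lam g = 1) (hP : ∀ g, g ∈ P ↔ g ∈ Q ∧ (lam g = 1 ∨ lam g = -1))
    (hfL : Finite (ConnectedComponents L)) (hfP : Finite (ConnectedComponents P))
    (S : Set X) (hS : Invariant Q S) (hS' : IsLocallyClosed S)
    (htriv : ∀ l ∈ L, ∀ x ∈ S, l • x = x) : BC Q S := by
  have hinv : ∀ a ∈ Q, lam a * lam a⁻¹ = 1 := by
    intro a ha
    rw [← hmul a ha _ (Q.inv_mem ha), mul_inv_cancel, h1]
  have hLc : IsClosed (L : Set G) := by
    have h2 : (L : Set G) = (Q : Set G) ∩ lam ⁻¹' {1} := by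
      ext g
      exact hL g
    rw [h2]
    exact hQ.inter (isClosed_singleton.preimage hlam)
  have hLQ : L ≤ Q := fun g hg => ((hL g).1 hg).1
  refine h.extension Q L hQ hLc hLQ ?_ S hS hS' ?_
  · intro a ha b hb
    have e1 := Q.mul_mem ha hb
    have e2 := Q.mul_mem e1 (Q.inv_mem ha)
    have e3 := Q.mul_mem e2 (Q.inv_mem hb)
    refine (hL _).2 ⟨e3, ?_⟩
    rw [hmul _ e2 _ (Q.inv_mem hb), hmul _ e1 _ (Q.inv_mem ha), hmul a ha b hb]
    have h2 := hinv a ha
    have h3 := hinv b hb
    calc lam a * lam b * lam a⁻¹ * lam b⁻¹ = (lam a * lam a⁻¹) * (lam b * lam b⁻¹) := by ring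
      _ = 1 := by rw [h2, h3, one_mul]
  · rintro M hM hLM hMQ ⟨C, hC, hCM⟩
    -- `lam` is bounded on `M`
    obtain ⟨B, hB⟩ : ∃ B : ℝ, ∀ m ∈ M, |lam m| ≤ B := by
      obtain ⟨B, hB⟩ := (hC.image hlam).isBounded.exists_norm_le
      refine ⟨B, fun m hm => ?_⟩
      obtain ⟨c, hc, l, hl, rfl⟩ := hCM m hm
      have hcQ : c ∈ Q := by
        have h2 := Q.mul_mem (hMQ hm) (Q.inv_mem (hLQ hl))
        rwa [mul_inv_cancel_right] at h2
      rw [hmul c hcQ l (hLQ hl), ((hL l).1 hl).2, mul_one]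
      exact hB _ ⟨c, hc, rfl⟩
    have hpow : ∀ m ∈ M, ∀ k : ℕ, lam (m ^ k) = lam m ^ k := by
      intro m hm k
      induction k with
      | zero => simp [h1]
      | succ k ih =>
        rw [pow_succ, hmul _ (hMQ (M.pow_mem hm k)) _ (hMQ hm), ih, pow_succ]
    have hle : ∀ m ∈ M, |lam m| ≤ 1 := by
      intro m hm
      by_contra hlt
      push Not at hlt
      obtain ⟨k, hk⟩ := pow_unbounded_of_one_lt B hlt
      have h2 := hB _ (M.pow_mem hm k)
      rw [hpow m hm k, abs_pow] at h2
      linarith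
    have hpm : ∀ m ∈ M, lam m = 1 ∨ lam m = -1 := by
      intro m hm
      have h2 := hle m hm
      have h3 := hle _ (M.inv_mem hm)
      have h4 := hinv m (hMQ hm)
      have h5 : |lam m| * |lam m⁻¹| = 1 := by rw [← abs_mul, h4, abs_one]
      have h6 : |lam m| = 1 := by
        have h7 := abs_nonneg (lam m)
        have h8 := abs_nonneg (lam m⁻¹)
        nlinarith
      rcases abs_eq (zero_le_one' ℝ) |>.1 h6 with h9 | h9
      · exact Or.inl h9
      · exact Or.inr h9
    by_cases hall : ∀ m ∈ M, lam m = 1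
    · have hML : M = L := le_antisymm (fun m hm => (hL m).2 ⟨hMQ hm, hall m hm⟩) hLM
      rw [hML]
      exact h.trivial L S hLc hfL htriv hS'
    · push Not at hall
      obtain ⟨s, hs, hs1⟩ := hall
      have hs2 : lam s = -1 := (hpm s hs).resolve_left hs1
      have hsQ := hMQ hs
      have hsi : lam s⁻¹ = -1 := by
        have h2 := hinv s hsQ
        rw [hs2] at h2
        linarith
      have hMP : M = P := by
        apply le_antisymm
        · intro m hm
          exact (hP m).2 ⟨hMQ hm, hpm m hm⟩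
        · intro g hg
          obtain ⟨h2, h3⟩ := (hP g).1 hg
          rcases h3 with h3 | h3
          · exact hLM ((hL g).2 ⟨h2, h3⟩)
          · have h4 : s⁻¹ * g ∈ L := (hL _).2 ⟨Q.mul_mem (Q.inv_mem hsQ) h2, by
              rw [hmul _ (Q.inv_mem hsQ) _ h2, hsi, h3]; norm_num⟩
            have h5 := M.mul_mem hs (hLM h4)
            rwa [mul_inv_cancel_left] at h5
      have hconj : ∀ a ∈ Q, ∀ l ∈ L, a * l * a⁻¹ ∈ L := by
        intro a ha l hl
        have e1 := Q.mul_mem ha (hLQ hl)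
        refine (hL _).2 ⟨Q.mul_mem e1 (Q.inv_mem ha), ?_⟩
        rw [hmul _ e1 _ (Q.inv_mem ha), hmul a ha l (hLQ hl), ((hL l).1 hl).2, mul_one, hinv a ha]
      refine two_case h M L hM hLc hLM hfL (by rw [hMP]; exact hfP) s hs ?_ ?_ (hconj s hsQ) ?_ ?_ S
        ?_ hS' htriv
      · intro h2
        rw [((hL s).1 h2).2] at hs2
        norm_num at hs2
      · intro m hm
        rcases hpm m hm with h2 | h2
        · exact Or.inl ((hL m).2 ⟨hMQ hm, h2⟩)
        · refine Or.inr ((hL _).2 ⟨Q.mul_mem (Q.inv_mem hsQ) (hMQ hm), ?_⟩)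
          rw [hmul _ (Q.inv_mem hsQ) _ (hMQ hm), hsi, h2]
          norm_num
      · intro l hl
        have h2 := hconj s⁻¹ (Q.inv_mem hsQ) l hl
        rwa [inv_inv] at h2
      · refine (hL _).2 ⟨Q.mul_mem hsQ hsQ, ?_⟩
        rw [hmul s hsQ s hsQ, hs2]
        norm_num
      · intro m hm x hx
        exact hS m (hMQ hm) x hx

end

end Pool.Agent.V7H36.HS
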