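import Mathlib
import Pool.Agent.V7H36.HS.Chain
import Pool.Agent.V7H36.HS.Line
import Pool.Agent.V7H36.HS.Comp

/-!
# The assembly map for `SL_n(ℝ)`-spaces with large stabilizers
-/

set_option autoImplicit false

open Matrix MulAction

namespace Pool.Agent.V7H36.HS

section

variable {m : ℕ}

/-- the entry at `(0, 0)` -/
noncomputable def lam (g : SL m) : ℝ := g.1 0 0

theorem continuous_lam : Continuous (lam (m := m)) :=
  (SpecialLinearGroup.isClosedEmbedding_val (n := Fin (m + 1)) (R := ℝ)).continuous.matrix_elem 0 0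

theorem lineStab_iff (g : SL m) : g ∈ lineStab (e0 m) ↔ g.1 *ᵥ e0 m = lam g • e0 m := by
  constructor
  · rintro ⟨c, hc, h⟩
    have h1 : lam g = c := by
      have h2 := congrFun h 0
      rw [mulVec_single_one] at h2
      simpa [lam] using h2
    rw [h1, h]
  · intro h
    refine ⟨lam g, ?_, h⟩
    intro h1
    rw [h1, zero_smul] at h
    exact mulVec_ne_zero g e0_ne h

theorem planeStab_iff (g : SL m) : g ∈ planeStab (e0 m) ↔ e0 m ᵥ* g.1 = lam g • e0 m := by
  constructor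
  · rintro ⟨c, hc, h⟩
    have h1 : lam g = c := by
      have h2 := congrFun h 0
      rw [single_one_vecMul] at h2
      simpa [lam] using h2
    rw [h1, h]
  · intro h
    refine ⟨lam g, ?_, h⟩
    intro h1
    rw [h1, zero_smul] at h
    exact vecMul_ne_zero g e0_ne h

theorem isClosed_lineStab : IsClosed (lineStab (e0 m) : Set (SL m)) := by
  have h1 : (lineStab (e0 m) : Set (SL m)) = {g | g.1 *ᵥ e0 m = lam g • e0 m} := by
    ext g
    exact lineStab_iff g
  rw [h1]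
  have h2 : Continuous fun g : SL m => g.1 :=
    (SpecialLinearGroup.isClosedEmbedding_val (n := Fin (m + 1)) (R := ℝ)).continuous
  exact isClosed_eq (h2.matrix_mulVec continuous_const) (continuous_lam.smul continuous_const)

theorem isClosed_planeStab : IsClosed (planeStab (e0 m) : Set (SL m)) := by
  have h1 : (planeStab (e0 m) : Set (SL m)) = {g | e0 m ᵥ* g.1 = lam g • e0 m} := by
    ext g
    exact planeStab_iff g
  rw [h1]
  have h2 : Continuous fun g : SL m => g.1 :=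
    (SpecialLinearGroup.isClosedEmbedding_val (n := Fin (m + 1)) (R := ℝ)).continuous
  exact isClosed_eq (continuous_const.matrix_vecMul h2) (continuous_lam.smul continuous_const)

theorem lam_one : lam (1 : SL m) = 1 := by
  change (1 : Matrix (Fin (m + 1)) (Fin (m + 1)) ℝ) 0 0 = 1
  simp

theorem lam_eq (g : SL m) : lam g = (g.1 *ᵥ e0 m) 0 := by
  rw [mulVec_single_one]
  rfl

theorem lam_eq' (g : SL m) : lam g = (e0 m ᵥ* g.1) 0 := by
  rw [single_one_vecMul]
  rfl

theorem lam_mul_line (a b : SL m) (hb : b ∈ lineStab (e0 m)) : lam (a * b) = lam a * lam b := by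
  rw [lam_eq (a * b)]
  change ((a.1 * b.1) *ᵥ e0 m) 0 = _
  rw [← mulVec_mulVec, (lineStab_iff b).1 hb, mulVec_smul, Pi.smul_apply, ← lam_eq, smul_eq_mul]
  ring

theorem lam_mul_plane (a b : SL m) (ha : a ∈ planeStab (e0 m)) : lam (a * b) = lam a * lam b := by
  rw [lam_eq' (a * b)]
  change (e0 m ᵥ* (a.1 * b.1)) 0 = _
  rw [← vecMul_vecMul, (planeStab_iff a).1 ha, smul_vecMul, Pi.smul_apply, ← lam_eq', smul_eq_mul]

theorem vecStab_iff (g : SL m) : g ∈ vecStab (e0 m) ↔ g ∈ lineStab (e0 m) ∧ lam g = 1 := by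
  rw [lineStab_iff]
  constructor
  · intro h
    have h : g.1 *ᵥ e0 m = e0 m := h
    have h1 : lam g = 1 := by
      rw [lam_eq, h]
      simp
    rw [h1, one_smul]
    exact ⟨h, rfl⟩
  · rintro ⟨h1, h2⟩
    rw [h2, one_smul] at h1
    exact h1

theorem formStab_iff (g : SL m) : g ∈ formStab (e0 m) ↔ g ∈ planeStab (e0 m) ∧ lam g = 1 := by
  rw [planeStab_iff]
  constructor
  · intro h
    have h : e0 m ᵥ* g.1 = e0 m := h
    have h1 : lam g = 1 := by
      rw [lam_eq', h]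
      simp
    rw [h1, one_smul]
    exact ⟨h, rfl⟩
  · rintro ⟨h1, h2⟩
    rw [h2, one_smul] at h1
    exact h1

/-- the elements with `lam = ± 1` -/
def pm (Q : Subgroup (SL m)) (hQ : ∀ a ∈ Q, ∀ b ∈ Q, lam (a * b) = lam a * lam b) :
    Subgroup (SL m) where
  carrier := {g | g ∈ Q ∧ (lam g = 1 ∨ lam g = -1)}
  mul_mem' := by
    rintro a b ⟨ha, ha'⟩ ⟨hb, hb'⟩
    refine ⟨Q.mul_mem ha hb, ?_⟩
    rw [hQ a ha b hb]
    rcases ha' with h | h <;> rcases hb' with h' | h' <;> rw [h, h'] <;> norm_num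
  one_mem' := ⟨Q.one_mem, Or.inl lam_one⟩
  inv_mem' := by
    rintro a ⟨ha, ha'⟩
    refine ⟨Q.inv_mem ha, ?_⟩
    have h1 : lam a * lam a⁻¹ = 1 := by
      rw [← hQ a ha _ (Q.inv_mem ha), mul_inv_cancel]
      exact lam_one
    rcases ha' with h | h
    · rw [h, one_mul] at h1
      exact Or.inl h1
    · rw [h] at h1
      right
      linarith

theorem exists_neg (hm : 1 ≤ m) : ∃ s : SL m, s ∈ lineStab (e0 m) ∧ s ∈ planeStab (e0 m) ∧
    lam s = -1 := by
  have h01 : (0 : Fin (m + 1)) ≠ ⟨1, by omega⟩ := by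
    intro h
    have := congrArg Fin.val h
    simp at this
  obtain ⟨s, -, hs⟩ := in_diag2 (H := (⊤ : Subgroup (SL m))) (fun _ _ _ => trivial) h01
    (a := -1) (by norm_num)
  have h1 : lam s = -1 := by
    rw [lam, hs]
    simp
  refine ⟨s, (lineStab_iff s).2 ?_, (planeStab_iff s).2 ?_, h1⟩
  · rw [h1, hs]
    ext i
    rw [mulVec_diagonal]
    by_cases h2 : i = 0
    · subst h2
      simp
    · simp [h2]
  · rw [h1, hs]
    ext i
    rw [vecMul_diagonal]
    by_cases h2 : i = 0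
    · subst h2
      simp
    · simp [h2]

theorem tv_mem_vecStab {v w φ : Fin (m + 1) → ℝ} (h : φ ⬝ᵥ w = 0) (h' : φ ⬝ᵥ v = 0) :
    (tv w φ : SL m) ∈ vecStab v := by
  change (tv w φ : SL m).1 *ᵥ v = v
  rw [tv_apply h, h', zero_smul, add_zero]

theorem tv_mem_formStab {ψ w φ : Fin (m + 1) → ℝ} (h : φ ⬝ᵥ w = 0) (h' : ψ ⬝ᵥ w = 0) :
    (tv w φ : SL m) ∈ formStab ψ := by
  change ψ ᵥ* (tv w φ : SL m).1 = ψ
  rw [tv_apply' h, h', zero_smul, add_zero]

theorem conj_vecStab (g : SL m) (v : Fin (m + 1) → ℝ) {l : SL m} (hl : l ∈ vecStab v) :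
    g * l * g⁻¹ ∈ vecStab (g.1 *ᵥ v) := by
  have hl : l.1 *ᵥ v = v := hl
  change (g.1 * l.1 * (g⁻¹).1) *ᵥ (g.1 *ᵥ v) = g.1 *ᵥ v
  rw [mulVec_mulVec, mul_assoc, inv_mul_coe, mul_one, ← mulVec_mulVec, hl]

theorem conj_formStab (g : SL m) (φ : Fin (m + 1) → ℝ) {l : SL m} (hl : l ∈ formStab φ) :
    g * l * g⁻¹ ∈ formStab (φ ᵥ* (g⁻¹).1) := by
  have hl : φ ᵥ* l.1 = φ := hl
  change (φ ᵥ* (g⁻¹).1) ᵥ* (g.1 * l.1 * (g⁻¹).1) = φ ᵥ* (g⁻¹).1
  rw [vecMul_vecMul, ← mul_assoc, ← mul_assoc, inv_mul_coe, one_mul, ← vecMul_vecMul, hl]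

theorem vecStab_smul {c : ℝ} (hc : c ≠ 0) (v : Fin (m + 1) → ℝ) :
    (vecStab (c • v) : Subgroup (SL m)) = vecStab v := by
  ext g
  change g.1 *ᵥ (c • v) = c • v ↔ g.1 *ᵥ v = v
  rw [mulVec_smul]
  exact ⟨fun h => smul_right_injective _ hc h, fun h => by rw [h]⟩

theorem formStab_smul {c : ℝ} (hc : c ≠ 0) (v : Fin (m + 1) → ℝ) :
    (formStab (c • v) : Subgroup (SL m)) = formStab v := by
  ext g
  change (c • v) ᵥ* g.1 = c • v ↔ v ᵥ* g.1 = v
  rw [smul_vecMul]
  exact ⟨fun h => smul_right_injective _ hc h, fun h => by rw [h]⟩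

/-- the first key fact: the transvections which fix `e0` and `g e0` -/
theorem key_line {H : Subgroup (SL m)} {g : SL m}
    (h : ∀ w φ : Fin (m + 1) → ℝ, φ ⬝ᵥ w = 0 → φ ⬝ᵥ e0 m = 0 → tv w φ ∈ H)
    (h' : ∀ w φ : Fin (m + 1) → ℝ, φ ⬝ᵥ w = 0 → φ ⬝ᵥ e0 m = 0 → g * tv w φ * g⁻¹ ∈ H)
    (hg : g ∉ lineStab (e0 m)) : H = ⊤ := by
  refine top_of_axi fun φ => axi_all (v := e0 m) (v' := g.1 *ᵥ e0 m) ?_ ?_ ?_ φ
  · intro c hc
    apply hg
    refine ⟨c, ?_, hc⟩
    rintro rfl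
    rw [zero_smul] at hc
    exact mulVec_ne_zero g e0_ne hc
  · intro φ hφ w hw
    exact h w φ hw hφ
  · intro φ hφ w hw
    have h1 : (φ ᵥ* g.1) ⬝ᵥ ((g⁻¹).1 *ᵥ w) = 0 := by
      rw [← dotProduct_mulVec, mulVec_mulVec, mul_inv_coe, one_mulVec, hw]
    have h2 : (φ ᵥ* g.1) ⬝ᵥ e0 m = 0 := by rw [← dotProduct_mulVec, hφ]
    have h3 := h' _ _ h1 h2
    rw [conj_tv g _ _ h1, mulVec_mulVec, mul_inv_coe, one_mulVec, vecMul_vecMul, mul_inv_coe,
      vecMul_one] at h3
    exact h3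

theorem key_plane {H : Subgroup (SL m)} {g : SL m}
    (h : ∀ w φ : Fin (m + 1) → ℝ, φ ⬝ᵥ w = 0 → e0 m ⬝ᵥ w = 0 → tv w φ ∈ H)
    (h' : ∀ w φ : Fin (m + 1) → ℝ, φ ⬝ᵥ w = 0 → e0 m ⬝ᵥ w = 0 → g * tv w φ * g⁻¹ ∈ H)
    (hg : g ∉ planeStab (e0 m)) : H = ⊤ := by
  refine top_of_cen fun v => cen_all (φ := e0 m) (φ' := e0 m ᵥ* (g⁻¹).1) ?_ ?_ ?_ v
  · intro c hc
    apply hg
    have h1 : g⁻¹ ∈ planeStab (e0 m) := by
      refine ⟨c, ?_, hc⟩
      rintro rfl
      rw [zero_smul] at hc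
      exact vecMul_ne_zero g⁻¹ e0_ne hc
    have h2 := (planeStab (e0 m)).inv_mem h1
    rwa [inv_inv] at h2
  · intro v hv φ hφ
    exact h v φ hφ hv
  · intro v hv φ hφ
    have h1 : (φ ᵥ* g.1) ⬝ᵥ ((g⁻¹).1 *ᵥ v) = 0 := by
      rw [← dotProduct_mulVec, mulVec_mulVec, mul_inv_coe, one_mulVec, hφ]
    have h2 : e0 m ⬝ᵥ ((g⁻¹).1 *ᵥ v) = 0 := by rw [dotProduct_mulVec, hv]
    have h3 := h' _ _ h1 h2
    rw [conj_tv g _ _ h1, mulVec_mulVec, mul_inv_coe, one_mulVec, vecMul_vecMul, mul_inv_coe,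
      vecMul_one] at h3
    exact h3

/-- every line is the image of the first one -/
theorem exists_move {v : Fin (m + 1) → ℝ} (hv : v ≠ 0) : ∃ g : SL m, ∃ a : ℝ, a ≠ 0 ∧
    g.1 *ᵥ e0 m = a • v := by
  obtain ⟨R, hR⟩ := exists_col m
  obtain ⟨g, -, a, ha, h⟩ := hR v hv
  exact ⟨g, a, ha, h⟩

theorem exists_move' {v : Fin (m + 1) → ℝ} (hv : v ≠ 0) : ∃ g : SL m, ∃ a : ℝ, a ≠ 0 ∧
    e0 m ᵥ* (g⁻¹).1 = a • v := by
  obtain ⟨g, a, ha, h⟩ := exists_move hv
  refine ⟨(g.transpose)⁻¹, a, ha, ?_⟩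
  rw [inv_inv]
  change e0 m ᵥ* (g.1)ᵀ = _
  rw [vecMul_transpose, h]

variable {X : Type} [TopologicalSpace X] [T2Space X] [SecondCountableTopology X]
  [MulAction (SL m) X] [ContinuousSMul (SL m) X]

/-- **Spaces whose stabilizers contain the stabilizer of a vector or of a linear form.** -/
theorem vector_case (hm : 1 ≤ m) {BC : Subgroup (SL m) → Set X → Prop} (h : IsAssembly BC)
    (A : Set X) (hA : Invariant (⊤ : Subgroup (SL m)) A) (hA' : IsLocallyClosed A)
    (hX : ∀ x ∈ A, (∃ v : Fin (m + 1) → ℝ, v ≠ 0 ∧ vecStab v ≤ stabilizer (SL m) x) ∨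
      ∃ φ : Fin (m + 1) → ℝ, φ ≠ 0 ∧ formStab φ ≤ stabilizer (SL m) x) : BC ⊤ A := by
  obtain ⟨s, hs1, hs2, hs3⟩ := exists_neg hm
  let Q : ℕ → Subgroup (SL m) := fun i =>
    if i = 0 then lineStab (e0 m) else if i = 1 then planeStab (e0 m) else ⊤
  let L : ℕ → Set (SL m) := fun i =>
    if i = 0 then (vecStab (e0 m) : Set (SL m)) else
      if i = 1 then (formStab (e0 m) : Set (SL m)) else Set.univ
  have hcases : ∀ i < 3, i = 0 ∨ i = 1 ∨ i = 2 := by
    intro i hi
    omega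
  refine chain h 3 Q L ?_ ?_ ?_ ?_ ?_ A hA hA' ?_
  · intro i hi
    rcases hcases i hi with rfl | rfl | rfl
    · exact compact_line
    · exact compact_plane
    · change CompactSpace (SL m ⧸ (⊤ : Subgroup (SL m)))
      haveI : Subsingleton (SL m ⧸ (⊤ : Subgroup (SL m))) := QuotientGroup.subsingleton_quotient_top
      infer_instance
  · intro i hi
    rcases hcases i hi with rfl | rfl | rfl
    · exact isClosed_lineStab
    · exact isClosed_planeStab
    · exact isClosed_univ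
  · intro i hi
    rcases hcases i hi with rfl | rfl | rfl
    · rintro q ⟨c, hc, hq⟩ l hl
      have h1 := conj_vecStab q (e0 m) hl
      rw [hq, vecStab_smul hc] at h1
      exact h1
    · intro q hq l hl
      obtain ⟨c, hc, hq'⟩ := (planeStab (e0 m)).inv_mem hq
      have h1 := conj_formStab q (e0 m) hl
      rw [hq', formStab_smul hc] at h1
      exact h1
    · intro q _ l _
      trivial
  · intro i hi H g h1 h2
    rcases hcases i hi with rfl | rfl | rfl
    · by_cases hg : g ∈ lineStab (e0 m)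
      · exact Or.inl hg
      · refine Or.inr ⟨2, by omega, by omega, 1, fun l _ => ?_⟩
        have h3 : H = ⊤ := key_line (fun w φ hw hφ => h1 _ (tv_mem_vecStab hw hφ))
          (fun w φ hw hφ => h2 _ (tv_mem_vecStab hw hφ)) hg
        rw [h3]
        trivial
    · by_cases hg : g ∈ planeStab (e0 m)
      · exact Or.inl hg
      · refine Or.inr ⟨2, by omega, by omega, 1, fun l _ => ?_⟩
        have h3 : H = ⊤ := key_plane (fun w φ hw hφ => h1 _ (tv_mem_formStab hw hφ))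
          (fun w φ hw hφ => h2 _ (tv_mem_formStab hw hφ)) hg
        rw [h3]
        trivial
    · exact Or.inl trivial
  · intro i hi S hS hS' htriv
    rcases hcases i hi with rfl | rfl | rfl
    · have hmul : ∀ a ∈ lineStab (e0 m), ∀ b ∈ lineStab (e0 m), lam (a * b) = lam a * lam b :=
        fun a _ b hb => lam_mul_line a b hb
      haveI := connected_vecStab hm
      refine line_case h (lineStab (e0 m)) (vecStab (e0 m)) (pm _ hmul) lam continuous_lam lam_one
        hmul isClosed_lineStab vecStab_iff (fun g => Iff.rfl) inferInstance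
        (finite_components _ (vecStab (e0 m)) inferInstance ?_ s ⟨hs1, Or.inr hs3⟩ ?_) S hS hS' htriv
      · intro g hg
        exact ⟨((vecStab_iff g).1 hg).1, Or.inl ((vecStab_iff g).1 hg).2⟩
      · rintro g ⟨hg, hg' | hg'⟩
        · exact Or.inl ((vecStab_iff g).2 ⟨hg, hg'⟩)
        · refine Or.inr ((vecStab_iff _).2 ⟨Subgroup.mul_mem _ (Subgroup.inv_mem _ hs1) hg, ?_⟩)
          have h3 : lam s * lam s⁻¹ = 1 := by
            rw [← hmul s hs1 _ (Subgroup.inv_mem _ hs1), mul_inv_cancel]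
            exact lam_one
          rw [hmul _ (Subgroup.inv_mem _ hs1) _ hg, hg']
          rw [hs3] at h3
          linarith
    · have hmul : ∀ a ∈ planeStab (e0 m), ∀ b ∈ planeStab (e0 m), lam (a * b) = lam a * lam b :=
        fun a ha b _ => lam_mul_plane a b ha
      haveI := connected_formStab hm
      refine line_case h (planeStab (e0 m)) (formStab (e0 m)) (pm _ hmul) lam continuous_lam lam_one
        hmul isClosed_planeStab formStab_iff (fun g => Iff.rfl) inferInstance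
        (finite_components _ (formStab (e0 m)) inferInstance ?_ s ⟨hs2, Or.inr hs3⟩ ?_) S hS hS' htriv
      · intro g hg
        exact ⟨((formStab_iff g).1 hg).1, Or.inl ((formStab_iff g).1 hg).2⟩
      · rintro g ⟨hg, hg' | hg'⟩
        · exact Or.inl ((formStab_iff g).2 ⟨hg, hg'⟩)
        · refine Or.inr ((formStab_iff _).2 ⟨Subgroup.mul_mem _ (Subgroup.inv_mem _ hs2) hg, ?_⟩)
          have h3 : lam s * lam s⁻¹ = 1 := by
            rw [← hmul s hs2 _ (Subgroup.inv_mem _ hs2), mul_inv_cancel]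
            exact lam_one
          rw [hmul _ (Subgroup.inv_mem _ hs2) _ hg, hg']
          rw [hs3] at h3
          linarith
    · refine h.trivial ⊤ S isClosed_univ ?_ (fun l _ x hx => htriv l trivial x hx) hS'
      have h1 : ConnectedSpace (⊤ : Subgroup (SL m)) := by
        refine (Function.Surjective.connectedSpace (f := fun g : SL m => (⟨g, trivial⟩ :
          (⊤ : Subgroup (SL m)))) ?_ ?_)
        · rintro ⟨g, hg⟩
          exact ⟨g, rfl⟩
        · exact continuous_id.subtype_mk _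
      infer_instance
  · intro x hx
    rcases hX x hx with ⟨v, hv, h1⟩ | ⟨φ, hφ, h1⟩
    · obtain ⟨g, a, ha, hg⟩ := exists_move hv
      refine ⟨0, by omega, g, fun l hl => ?_⟩
      have h2 := conj_vecStab g (e0 m) hl
      rw [hg, vecStab_smul ha] at h2
      exact h1 h2
    · obtain ⟨g, a, ha, hg⟩ := exists_move' hφ
      refine ⟨1, by omega, g, fun l hl => ?_⟩
      have h2 := conj_formStab g (e0 m) hl
      rw [hg, formStab_smul ha] at h2
      exact h1 h2

end

end Pool.Agent.V7H36.HS
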