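import Mathlib
import Pool.Agent.V7H36.HS.Main

/-!
# The assembly map for `SL_3(ℝ)`-spaces whose stabilizers contain a two-dimensional unipotent radical
-/

set_option autoImplicit false

open Matrix MulAction

namespace Pool.Agent.V7H36.HS

section

variable {m : ℕ}

theorem conj_cen (g : SL m) {v φ : Fin (m + 1) → ℝ} (h : φ ⬝ᵥ v = 0) {a : ℝ} (ha : a ≠ 0)
    {u : Fin (m + 1) → ℝ} (hg : g.1 *ᵥ v = a • u) :
    ∃ ψ : Fin (m + 1) → ℝ, ψ ⬝ᵥ u = 0 ∧ g * tv v φ * g⁻¹ = tv u ψ := by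
  have h1 : (φ ᵥ* (g⁻¹).1) ⬝ᵥ u = 0 := by
    have h2 := pairing g v φ
    rw [hg, dotProduct_smul, h, smul_eq_mul] at h2
    exact (mul_eq_zero.1 h2).resolve_left ha
  refine ⟨a • (φ ᵥ* (g⁻¹).1), by rw [smul_dotProduct, h1, smul_zero], ?_⟩
  rw [conj_tv g _ _ h, hg, tv_smul a _ _ h1]

theorem conj_axi (g : SL m) {v φ : Fin (m + 1) → ℝ} (h : φ ⬝ᵥ v = 0) {a : ℝ} (ha : a ≠ 0)
    {u : Fin (m + 1) → ℝ} (hg : φ ᵥ* (g⁻¹).1 = a • u) :
    ∃ w : Fin (m + 1) → ℝ, u ⬝ᵥ w = 0 ∧ g * tv v φ * g⁻¹ = tv w u := by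
  have h1 : u ⬝ᵥ (g.1 *ᵥ v) = 0 := by
    have h2 := pairing g v φ
    rw [hg, smul_dotProduct, h, smul_eq_mul] at h2
    exact (mul_eq_zero.1 h2).resolve_left ha
  refine ⟨a • (g.1 *ᵥ v), by rw [dotProduct_smul, h1, smul_zero], ?_⟩
  rw [conj_tv g _ _ h, hg, ← tv_smul a _ _ h1]

/-- in the space, the plane of `e0` and `v` is the set of the zeros of a form -/
theorem plane_form (v : Fin 3 → ℝ) (hv : ∀ c : ℝ, v ≠ c • e0 2) :
    ∃ ψ : Fin 3 → ℝ, ψ ≠ 0 ∧ ∀ w : Fin 3 → ℝ, ψ ⬝ᵥ w = 0 → ∃ s t : ℝ, w = s • e0 2 + t • v := by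
  have hne : ¬ (v 1 = 0 ∧ v 2 = 0) := by
    rintro ⟨h1, h2⟩
    apply hv (v 0)
    ext i
    fin_cases i
    · simp
    · simp [h1]
    · simp [h2]
  refine ⟨![0, -v 2, v 1], ?_, fun w hw => ?_⟩
  · intro h
    apply hne
    have h1 := congrFun h 1
    have h2 := congrFun h 2
    simp at h1 h2
    exact ⟨h2, h1⟩
  · have hw' : -v 2 * w 1 + v 1 * w 2 = 0 := by
      have h1 : ![0, -v 2, v 1] ⬝ᵥ w = 0 * w 0 + -v 2 * w 1 + v 1 * w 2 := by
        simp [dotProduct, Fin.sum_univ_three]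
      rw [h1] at hw
      linarith
    by_cases h1 : v 1 = 0
    · have h2 : v 2 ≠ 0 := fun h => hne ⟨h1, h⟩
      refine ⟨w 0 - w 2 / v 2 * v 0, w 2 / v 2, ?_⟩
      ext i
      fin_cases i
      · simp
      · have h3 : w 1 = 0 := by
          rw [h1] at hw'
          have h4 : v 2 * w 1 = 0 := by linarith
          exact (mul_eq_zero.1 h4).resolve_left h2
        simp [h1, h3]
      · simp [h2]
    · refine ⟨w 0 - w 1 / v 1 * v 0, w 1 / v 1, ?_⟩
      ext i
      fin_cases i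
      · simp
      · simp [h1]
      · have h3 : w 2 = w 1 / v 1 * v 2 := by
          field_simp
          linarith
        simp [h3]

variable {X : Type} [TopologicalSpace X] [T2Space X] [SecondCountableTopology X]
  [MulAction (SL 2) X] [ContinuousSMul (SL 2) X]

theorem connected_top : ConnectedSpace (⊤ : Subgroup (SL m)) := by
  refine (Function.Surjective.connectedSpace (f := fun g : SL m => (⟨g, trivial⟩ :
    (⊤ : Subgroup (SL m)))) ?_ ?_)
  · rintro ⟨g, hg⟩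
    exact ⟨g, rfl⟩
  · exact continuous_id.subtype_mk _

/-- **`SL_3(ℝ)`-spaces whose stabilizers contain a two-dimensional unipotent radical.** -/
theorem three_case {BC : Subgroup (SL 2) → Set X → Prop} (h : IsAssembly BC)
    (hP : ∀ S : Set X, IsLocallyClosed S →
      (Invariant (lineStab (e0 2)) S → BC (lineStab (e0 2)) S) ∧
      (Invariant (planeStab (e0 2)) S → BC (planeStab (e0 2)) S))
    (A : Set X) (hA : Invariant (⊤ : Subgroup (SL 2)) A) (hA' : IsLocallyClosed A)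
    (hX : ∀ x ∈ A, (∃ v : Fin 3 → ℝ, v ≠ 0 ∧ ∀ φ, φ ⬝ᵥ v = 0 → tv v φ ∈ stabilizer (SL 2) x) ∨
      ∃ φ : Fin 3 → ℝ, φ ≠ 0 ∧ ∀ v, φ ⬝ᵥ v = 0 → tv v φ ∈ stabilizer (SL 2) x) : BC ⊤ A := by
  let Q : ℕ → Subgroup (SL 2) := fun i =>
    if i = 0 then lineStab (e0 2) else if i = 1 then planeStab (e0 2) else
      if i = 2 then lineStab (e0 2) else if i = 3 then planeStab (e0 2) else ⊤
  let L : ℕ → Set (SL 2) := fun i =>
    if i = 0 then {l | ∃ φ, φ ⬝ᵥ e0 2 = 0 ∧ l = tv (e0 2) φ} else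
      if i = 1 then {l | ∃ v, e0 2 ⬝ᵥ v = 0 ∧ l = tv v (e0 2)} else
        if i = 2 then {l | ∃ v φ, φ ⬝ᵥ v = 0 ∧ φ ⬝ᵥ e0 2 = 0 ∧ l = tv v φ} else
          if i = 3 then {l | ∃ v φ, φ ⬝ᵥ v = 0 ∧ e0 2 ⬝ᵥ v = 0 ∧ l = tv v φ} else Set.univ
  have hcases : ∀ i < 5, i = 0 ∨ i = 1 ∨ i = 2 ∨ i = 3 ∨ i = 4 := by
    intro i hi
    omega
  refine chain h 5 Q L ?_ ?_ ?_ ?_ ?_ A hA hA' ?_
  · intro i hi
    rcases hcases i hi with rfl | rfl | rfl | rfl | rfl
    · exact compact_line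
    · exact compact_plane
    · exact compact_line
    · exact compact_plane
    · change CompactSpace (SL 2 ⧸ (⊤ : Subgroup (SL 2)))
      haveI : Subsingleton (SL 2 ⧸ (⊤ : Subgroup (SL 2))) := QuotientGroup.subsingleton_quotient_top
      infer_instance
  · intro i hi
    rcases hcases i hi with rfl | rfl | rfl | rfl | rfl
    · exact isClosed_lineStab
    · exact isClosed_planeStab
    · exact isClosed_lineStab
    · exact isClosed_planeStab
    · exact isClosed_univ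
  · intro i hi
    rcases hcases i hi with rfl | rfl | rfl | rfl | rfl
    · rintro q ⟨c, hc, hq⟩ l ⟨φ, hφ, rfl⟩
      obtain ⟨ψ, h1, h2⟩ := conj_cen q hφ hc hq
      exact ⟨ψ, h1, h2⟩
    · rintro q hq l ⟨v, hv, rfl⟩
      obtain ⟨c, hc, hq'⟩ := (planeStab (e0 2)).inv_mem hq
      obtain ⟨w, h1, h2⟩ := conj_axi q hv hc hq'
      exact ⟨w, h1, h2⟩
    · rintro q ⟨c, hc, hq⟩ l ⟨v, φ, h1, h2, rfl⟩
      refine ⟨q.1 *ᵥ v, φ ᵥ* (q⁻¹).1, ?_, ?_, conj_tv q _ _ h1⟩
      · rw [pairing, h1]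
      · have h3 := pairing q (e0 2) φ
        rw [hq, dotProduct_smul, h2, smul_eq_mul] at h3
        exact (mul_eq_zero.1 h3).resolve_left hc
    · rintro q hq l ⟨v, φ, h1, h2, rfl⟩
      obtain ⟨c, hc, hq'⟩ := (planeStab (e0 2)).inv_mem hq
      refine ⟨q.1 *ᵥ v, φ ᵥ* (q⁻¹).1, ?_, ?_, conj_tv q _ _ h1⟩
      · rw [pairing, h1]
      · have h3 := pairing q v (e0 2)
        rw [hq', smul_dotProduct, h2, smul_eq_mul] at h3
        exact (mul_eq_zero.1 h3).resolve_left hc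
    · intro q _ l _
      trivial
  · intro i hi H g h1 h2
    rcases hcases i hi with rfl | rfl | rfl | rfl | rfl
    · by_cases hg : g ∈ lineStab (e0 2)
      · exact Or.inl hg
      · -- two centers
        have hc1 : Cen H (e0 2) := fun φ hφ => h1 _ ⟨φ, hφ, rfl⟩
        have hc2 : Cen H (g.1 *ᵥ e0 2) := by
          intro φ hφ
          have h3 : (φ ᵥ* g.1) ⬝ᵥ e0 2 = 0 := by rw [← dotProduct_mulVec, hφ]
          have h4 := h2 _ ⟨φ ᵥ* g.1, h3, rfl⟩
          rw [conj_tv g _ _ h3, vecMul_vecMul, mul_inv_coe, vecMul_one] at h4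
          exact h4
        have hind : ∀ c : ℝ, g.1 *ᵥ e0 2 ≠ c • e0 2 := by
          intro c hc
          apply hg
          refine ⟨c, ?_, hc⟩
          rintro rfl
          rw [zero_smul] at hc
          exact mulVec_ne_zero g e0_ne hc
        obtain ⟨ψ, hψ, h3⟩ := plane_form _ hind
        obtain ⟨k, a, ha, hk⟩ := exists_move' (m := 2) hψ
        refine Or.inr ⟨3, by omega, by omega, k, ?_⟩
        rintro l ⟨v, φ, h4, h5, rfl⟩
        rw [conj_tv k _ _ h4]
        have h6 : ψ ⬝ᵥ (k.1 *ᵥ v) = 0 := by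
          have h7 := pairing k v (e0 2)
          rw [hk, smul_dotProduct, h5, smul_eq_mul] at h7
          exact (mul_eq_zero.1 h7).resolve_left ha
        obtain ⟨s, t, h7⟩ := h3 _ h6
        have h8 : Cen H (k.1 *ᵥ v) := by
          rw [h7]
          exact (hc1.smul s).add (hc2.smul t)
        exact h8 _ (by rw [pairing, h4])
    · by_cases hg : g ∈ planeStab (e0 2)
      · exact Or.inl hg
      · have hc1 : Axi H (e0 2) := fun v hv => h1 _ ⟨v, hv, rfl⟩
        have hc2 : Axi H (e0 2 ᵥ* (g⁻¹).1) := by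
          intro v hv
          have h3 : e0 2 ⬝ᵥ ((g⁻¹).1 *ᵥ v) = 0 := by rw [dotProduct_mulVec, hv]
          have h4 := h2 _ ⟨(g⁻¹).1 *ᵥ v, h3, rfl⟩
          rw [conj_tv g _ _ h3, mulVec_mulVec, mul_inv_coe, one_mulVec] at h4
          exact h4
        have hind : ∀ c : ℝ, e0 2 ᵥ* (g⁻¹).1 ≠ c • e0 2 := by
          intro c hc
          apply hg
          have h3 : g⁻¹ ∈ planeStab (e0 2) := by
            refine ⟨c, ?_, hc⟩
            rintro rfl
            rw [zero_smul] at hc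
            exact vecMul_ne_zero g⁻¹ e0_ne hc
          have h4 := (planeStab (e0 2)).inv_mem h3
          rwa [inv_inv] at h4
        obtain ⟨u, hu, h3⟩ := plane_form _ hind
        obtain ⟨k, a, ha, hk⟩ := exists_move (m := 2) hu
        refine Or.inr ⟨2, by omega, by omega, k, ?_⟩
        rintro l ⟨v, φ, h4, h5, rfl⟩
        rw [conj_tv k _ _ h4]
        have h6 : u ⬝ᵥ (φ ᵥ* (k⁻¹).1) = 0 := by
          have h7 := pairing k (e0 2) φ
          rw [hk, dotProduct_smul, h5, smul_eq_mul] at h7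
          rw [dotProduct_comm]
          exact (mul_eq_zero.1 h7).resolve_left ha
        obtain ⟨s, t, h7⟩ := h3 _ h6
        have h8 : Axi H (φ ᵥ* (k⁻¹).1) := by
          rw [h7]
          exact (hc1.smul s).add (hc2.smul t)
        exact h8 _ (by rw [pairing, h4])
    · by_cases hg : g ∈ lineStab (e0 2)
      · exact Or.inl hg
      · refine Or.inr ⟨4, by omega, by omega, 1, fun l _ => ?_⟩
        have h3 : H = ⊤ := key_line (fun w φ hw hφ => h1 _ ⟨w, φ, hw, hφ, rfl⟩)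
          (fun w φ hw hφ => h2 _ ⟨w, φ, hw, hφ, rfl⟩) hg
        rw [h3]
        trivial
    · by_cases hg : g ∈ planeStab (e0 2)
      · exact Or.inl hg
      · refine Or.inr ⟨4, by omega, by omega, 1, fun l _ => ?_⟩
        have h3 : H = ⊤ := key_plane (fun w φ hw hφ => h1 _ ⟨w, φ, hw, hφ, rfl⟩)
          (fun w φ hw hφ => h2 _ ⟨w, φ, hw, hφ, rfl⟩) hg
        rw [h3]
        trivial
    · exact Or.inl trivial
  · intro i hi S hS hS' htriv
    rcases hcases i hi with rfl | rfl | rfl | rfl | rfl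
    · exact (hP S hS').1 hS
    · exact (hP S hS').2 hS
    · exact (hP S hS').1 hS
    · exact (hP S hS').2 hS
    · refine h.trivial ⊤ S isClosed_univ ?_ (fun l _ x hx => htriv l trivial x hx) hS'
      haveI := connected_top (m := 2)
      infer_instance
  · intro x hx
    rcases hX x hx with ⟨v, hv, h1⟩ | ⟨φ, hφ, h1⟩
    · obtain ⟨g, a, ha, hg⟩ := exists_move (m := 2) hv
      refine ⟨0, by omega, g, ?_⟩
      rintro l ⟨φ, hφ, rfl⟩
      obtain ⟨ψ, h2, h3⟩ := conj_cen g hφ ha hg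
      rw [h3]
      exact h1 ψ h2
    · obtain ⟨g, a, ha, hg⟩ := exists_move' (m := 2) hφ
      refine ⟨1, by omega, g, ?_⟩
      rintro l ⟨v, hv, rfl⟩
      obtain ⟨w, h2, h3⟩ := conj_axi g hv ha hg
      rw [h3]
      exact h1 w h2

end

end Pool.Agent.V7H36.HS
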